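import Pool.Agent.H2.GEN.Act

/-!
# The rates of the rows of one coordinate given the other coordinates

`row_nums`: the entropy of the coordinate `i₁`, rounded at `2 ^ (-⌊Q J⌋)`, given a function of the
point of resolution `J`, is `ρ Q * log 2 * J` in a subclass, with a monotone function `ρ` with
Lipschitz constant one, `ρ 0 = 0`.
`row_f1`: given all the other coordinates, `ρ 1` is at most the difference of the rates of the point
and of the other coordinates.
-/

set_option autoImplicit false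

namespace Pool.GEN.N83

open Finset Real Pool.GEN
open Pool.Agent.H49.Ent Pool.Agent.H32.Dense Pool.STK Pool.KA Pool.K2S Pool.PB Pool.S6C

variable {m : ℕ}

/-- The rounded coordinate is a function of a finer one, and has few finer values. -/
theorem coord_near {Ω γ : Type} [Fintype Ω] {p : Ω → ℝ} (hp : IsLaw p) (x : Ω → Fin m → ℝ)
    (i₁ : Fin m) (W : Ω → γ) (k n : ℕ) :
    CH p (fun ω => fl k (x ω) i₁) W ≤ CH p (fun ω => fl (k + n) (x ω) i₁) W ∧
      CH p (fun ω => fl (k + n) (x ω) i₁) W ≤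
        CH p (fun ω => fl k (x ω) i₁) W + n * Real.log 2 := by
  have h1 : Det p (fun ω => fl (k + n) (x ω) i₁) (fun ω => fl k (x ω) i₁) := by
    intro ω ω' _ _ e
    have h2 := Pool.STK.B58.fl_fine (x := fun _ : Fin 1 => x ω i₁)
      (y := fun _ : Fin 1 => x ω' i₁) (Nat.le_add_right k n)
      (funext fun _ => e)
    exact congrFun h2 0
  have h3 := Pool.K2S.Rows.chain_det hp.nonneg (fun ω => fl (k + n) (x ω) i₁)
    (fun ω => fl k (x ω) i₁) W h1
  have h4 := Pool.KA.TRC.CH_floor hp (fun ω (_ : Fin 1) => x ω i₁) W k n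
  have h5 : CH p (fun ω => fl (k + n) (x ω) i₁) (fun ω => (fl k (x ω) i₁, W ω)) =
      CH p (fun ω => fl (k + n) (fun _ : Fin 1 => x ω i₁))
        (fun ω => (fl k (fun _ : Fin 1 => x ω i₁), W ω)) := by
    refine CH_congr hp.nonneg ?_ ?_ ?_ ?_
    · intro ω ω' _ _ e
      exact funext fun _ => (Prod.ext_iff.1 e).1
    · intro ω ω' _ _ e
      exact congrFun (Prod.ext_iff.1 e).1 0
    · intro ω ω' _ _ e
      exact Prod.ext (funext fun _ => (Prod.ext_iff.1 e).1) (Prod.ext_iff.1 e).2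
    · intro ω ω' _ _ e
      exact Prod.ext (congrFun (Prod.ext_iff.1 e).1 0) (Prod.ext_iff.1 e).2
  have h6 := CH_nonneg hp.nonneg (fun ω => fl (k + n) (x ω) i₁) (fun ω => (fl k (x ω) i₁, W ω))
  rw [← h5] at h4
  constructor
  · linarith
  · have : ((1 : ℕ) : ℝ) * (n * Real.log 2) = n * Real.log 2 := by push_cast; ring
    linarith

/-- **The rates of the rows of one coordinate**, given a function of the point. -/
theorem row_nums {S : PCl m} (hS : S.Ne)
    (hpos : ∀ (τ : ℝ) (J : ℕ) (F : Fam m J) (A : F.Ω → Prop), S.St τ J F A → 0 < Pe F.p A)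
    {M : ℝ} (hcnt : Bas S (fun J F A => ∀ k : ℕ, k ≤ J →
      (cnt F.p (ptr F k) A : ℝ) ≤ Real.exp (M * J))) (i₁ : Fin m) {B : ℕ}
    (hbx : Bas S (fun _ F A => ∀ ω, 0 < F.p ω → A ω → |F.x ω i₁| ≤ B))
    (β : ∀ J : ℕ, Fam m J → Type)
    (φ : ∀ (J : ℕ) (F : Fam m J), (Fin m → ℤ) × (ℕ × F.ζ) → β J F) :
    ∃ S' : PCl m, S'.Ne ∧
      (∀ (τ : ℝ) (J : ℕ) (F : Fam m J) (A : F.Ω → Prop), S'.St τ J F A → S.St τ J F A) ∧
      ∃ ρ : ℝ → ℝ, LipschitzWith 1 ρ ∧ Monotone ρ ∧ ρ 0 = 0 ∧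
        ∀ Q : ℝ, 0 ≤ Q → Q ≤ 1 → ∀ h : ℝ, 0 < h → Bas S' (fun J F A =>
          |CH (Pool.Agent.H49.Ent.cond F.p A True) (fun ω => F.X ⌊Q * J⌋₊ ω i₁)
            (fun ω => φ J F (ptr F J ω)) - ρ Q * Real.log 2 * J| ≤ h * J) := by
  classical
  have hl2 : 0 < Real.log 2 := Real.log_pos (by norm_num)
  -- the functions
  obtain ⟨e, he⟩ := exists_surjective_nat (Option Q01)
  obtain ⟨Y, hY⟩ : ∃ Y : ∀ (_ J : ℕ) (F : Fam m J), F.Ω → ℤ × β J F,
      Y = fun i J F ω => match e i with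
        | none => (0, φ J F (ptr F J ω))
        | some q => (F.X ⌊((q : ℚ) : ℝ) * J⌋₊ ω i₁, φ J F (ptr F J ω)) := ⟨_, rfl⟩
  have hY0 : ∀ i, e i = none → ∀ (J : ℕ) (F : Fam m J),
      Y i J F = fun ω => (0, φ J F (ptr F J ω)) := by
    intro i hi J F
    rw [hY]
    funext ω
    simp only [hi]
  have hY1 : ∀ i q, e i = some q → ∀ (J : ℕ) (F : Fam m J), Y i J F =
      fun ω => (F.X ⌊((q : ℚ) : ℝ) * J⌋₊ ω i₁, φ J F (ptr F J ω)) := by
    intro i q hi J F
    rw [hY]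
    funext ω
    simp only [hi]
  have hk : ∀ (q : Q01) (J : ℕ), ⌊((q : ℚ) : ℝ) * J⌋₊ ≤ J := by
    intro q J
    refine Nat.floor_le_of_le ?_
    have h1 : ((q : ℚ) : ℝ) ≤ 1 := by exact_mod_cast q.2.2
    have := mul_le_mul_of_nonneg_right h1 (Nat.cast_nonneg (α := ℝ) J)
    linarith
  obtain ⟨S', hne, hsub, hη⟩ := ext_ent_base hS hpos (fun _ J F => ℤ × β J F) Y
    (fun _ => M) (fun i => Bas.mono 0 hcnt (by
      intro J _ F A hA
      rcases hi : e i with _ | q
      · rw [hY0 i hi]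
        have h1 := cnt_comp_le F.p (ptr F J) (fun ω => ((0 : ℤ), φ J F (ptr F J ω)))
          (A := A) (fun y => (0, φ J F y)) (fun ω _ _ => rfl)
        calc (cnt F.p (fun ω => ((0 : ℤ), φ J F (ptr F J ω))) A : ℝ)
            ≤ cnt F.p (ptr F J) A := by exact_mod_cast h1
          _ ≤ Real.exp (M * J) := hA J le_rfl
      · rw [hY1 i q hi]
        obtain ⟨ψ, hψ⟩ := ptr_coarse F (hk q J)
        have h1 := cnt_comp_le F.p (ptr F J)
          (fun ω => (F.X ⌊((q : ℚ) : ℝ) * J⌋₊ ω i₁, φ J F (ptr F J ω)))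
          (A := A) (fun y => ((ψ y).1 i₁, φ J F y)) (fun ω _ _ => by
            rw [← hψ ω]
            rfl)
        calc (cnt F.p (fun ω => (F.X ⌊((q : ℚ) : ℝ) * J⌋₊ ω i₁, φ J F (ptr F J ω))) A : ℝ)
            ≤ cnt F.p (ptr F J) A := by exact_mod_cast h1
          _ ≤ Real.exp (M * J) := hA J le_rfl))
  obtain ⟨i₀, hi₀⟩ := he none
  obtain ⟨η₀, hη₀⟩ := hη i₀
  have hpos' : Bas S' (fun _ F A => 0 < Pe F.p A) :=
    ⟨1, one_pos, 0, fun J _ F A hA => hpos 1 J F A (hsub 1 J F A hA)⟩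
  have hbx' : Bas S' (fun _ F A => ∀ ω, 0 < F.p ω → A ω → |F.x ω i₁| ≤ B) := by
    obtain ⟨τ, hτ, J₁, hb⟩ := hbx
    exact ⟨τ, hτ, J₁, fun J hJ F A hA => hb J hJ F A (hsub τ J F A hA)⟩
  -- rational scales
  have hrat : ∀ q : Q01, ∃ ρ : ℝ, ∀ h : ℝ, 0 < h → Bas S' (fun J F A =>
      |CH (Pool.Agent.H49.Ent.cond F.p A True) (fun ω => F.X ⌊((q : ℚ) : ℝ) * J⌋₊ ω i₁)
        (fun ω => φ J F (ptr F J ω)) - ρ * J| ≤ h * J) := by
    intro q
    obtain ⟨i, hi⟩ := he (some q)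
    obtain ⟨η, hη⟩ := hη i
    refine ⟨η - η₀, fun h hh => ?_⟩
    refine Bas.mono 0 (((hη (h / 2) (half_pos hh)).and (hη₀ (h / 2) (half_pos hh))).and hpos') ?_
    rintro J - F A ⟨⟨k1, k2⟩, k3⟩
    rw [hY1 i q hi] at k1
    rw [hY0 i₀ hi₀] at k2
    have hcl := isLaw_cond F.isLaw k3
    have e1 : H (Pool.Agent.H49.Ent.cond F.p A True)
        (fun ω => ((0 : ℤ), φ J F (ptr F J ω))) =
        H (Pool.Agent.H49.Ent.cond F.p A True) (fun ω => φ J F (ptr F J ω)) :=
      H_congr hcl.nonneg (fun _ _ _ _ e => Prod.ext rfl e)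
        (fun _ _ _ _ e => (Prod.ext_iff.1 e).2)
    have e2 : CH (Pool.Agent.H49.Ent.cond F.p A True) (fun ω => F.X ⌊((q : ℚ) : ℝ) * J⌋₊ ω i₁)
        (fun ω => φ J F (ptr F J ω)) =
        H (Pool.Agent.H49.Ent.cond F.p A True)
          (fun ω => (F.X ⌊((q : ℚ) : ℝ) * J⌋₊ ω i₁, φ J F (ptr F J ω))) -
        H (Pool.Agent.H49.Ent.cond F.p A True) (fun ω => φ J F (ptr F J ω)) := rfl
    rw [e1] at k2
    rw [e2]
    rw [abs_le] at k1 k2 ⊢
    constructor <;> linarith [k1.1, k1.2, k2.1, k2.2]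
  obtain ⟨r, h1, h2, h3⟩ := nums hne (f := fun J F A k =>
    CH (Pool.Agent.H49.Ent.cond F.p A True) (fun ω => F.X k ω i₁)
      (fun ω => φ J F (ptr F J ω))) hl2.le hrat
    (Bas.mono 0 hpos' (by
      intro J _ F A hA k k' hk1 _
      have hcl := isLaw_cond F.isLaw hA
      obtain ⟨n, rfl⟩ := Nat.exists_eq_add_of_le hk1
      have a1 := coord_near hcl F.x i₁ (fun ω => φ J F (ptr F J ω)) k n
      refine ⟨a1.1, a1.2.trans (le_of_eq ?_)⟩
      push_cast
      show _ = CH (Pool.Agent.H49.Ent.cond F.p A True) (fun ω => fl k (F.x ω) i₁)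
        (fun ω => φ J F (ptr F J ω)) + Real.log 2 * ((k : ℝ) + n - k)
      ring))
  have hr0 : r 0 = 0 := by
    obtain ⟨c₀, hc₀⟩ : ∃ c₀ : ℝ, c₀ = Real.log ((Finset.Icc (-(B : ℤ)) B).card : ℝ) := ⟨_, rfl⟩
    have b1 : r 0 ≤ 0 := by
      have := lim_le (g := fun _ _ _ => 0) (b := 0) (c := 0) (C := c₀) hne
        (h3 0 le_rfl zero_le_one) (fun h hh => ⟨1, one_pos, 0, fun J _ F A _ => by
          show |(0 : ℝ) - 0 * (J : ℝ)| ≤ h * J
          rw [zero_mul, sub_zero, abs_zero]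
          positivity⟩)
        (Bas.mono 0 (hpos'.and hbx') (fun J _ F A hA => by
          have hcl := isLaw_cond F.isLaw hA.1
          have c1 : ⌊(0 : ℝ) * J⌋₊ = 0 := by simp
          simp only [c1]
          have c2 := CH_le_H' hcl (fun ω => F.X 0 ω i₁) (fun ω => φ J F (ptr F J ω))
          have c3 : H (Pool.Agent.H49.Ent.cond F.p A True) (fun ω => F.X 0 ω i₁) ≤ c₀ := by
            have c4 := H_le_cnt F.isLaw (fun ω => F.X 0 ω i₁) hA.1
            rw [hc₀]
            refine c4.trans (Real.log_le_log ?_ ?_)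
            · have := one_le_cnt F.isLaw (fun ω => F.X 0 ω i₁) hA.1
              exact_mod_cast this
            · have c5 := cnt_le_card F.p (fun ω => F.X 0 ω i₁) (A := A)
                (Finset.Icc (-(B : ℤ)) B) (fun ω hω hA' => by
                  have d1 := abs_le.1 (hA.2 ω hω hA')
                  have d2 : F.X 0 ω i₁ = ⌊F.x ω i₁⌋ := by
                    show ⌊(2 : ℝ) ^ 0 * F.x ω i₁⌋ = _
                    rw [pow_zero, one_mul]
                  rw [d2, Finset.mem_Icc]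
                  constructor
                  · rw [Int.le_floor]
                    push_cast
                    exact d1.1
                  · have d3 := Int.floor_le (F.x ω i₁)
                    exact_mod_cast d3.trans d1.2)
              exact_mod_cast c5
          linarith))
      linarith
    have b2 : 0 ≤ r 0 := by
      have := lim_le (f := fun _ _ _ => 0) (a := 0) (c := 0) (C := 0) hne
        (fun h hh => ⟨1, one_pos, 0, fun J _ F A _ => by
          show |(0 : ℝ) - 0 * (J : ℝ)| ≤ h * J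
          rw [zero_mul, sub_zero, abs_zero]
          positivity⟩) (h3 0 le_rfl zero_le_one)
        (Bas.mono 0 hpos' (fun J _ F A hA => by
          have := CH_nonneg (isLaw_cond F.isLaw hA).nonneg (fun ω => F.X ⌊(0 : ℝ) * J⌋₊ ω i₁)
            (fun ω => φ J F (ptr F J ω))
          linarith))
      linarith
    exact le_antisymm b1 b2
  refine ⟨S', hne, hsub, fun g => r g / Real.log 2, ?_, ?_, by simp [hr0], ?_⟩
  · refine LipschitzWith.of_dist_le_mul fun x y => ?_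
    have a1 := h1.dist_le_mul x y
    rw [Real.dist_eq, Real.dist_eq] at a1 ⊢
    have a2 : r x / Real.log 2 - r y / Real.log 2 = (r x - r y) / Real.log 2 := by
      ring
    rw [a2, abs_div, abs_of_pos hl2, div_le_iff₀ hl2]
    refine a1.trans (le_of_eq ?_)
    show Real.log 2 * |x - y| = _
    push_cast
    ring
  · intro x y hxy
    exact div_le_div_of_nonneg_right (h2 hxy) hl2.le
  · intro g hg0 hg1 h hh
    refine Bas.mono 0 (h3 g hg0 hg1 h hh) ?_
    intro J _ F A hA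
    have e1 : r g / Real.log 2 * Real.log 2 * J = r g * J := by
      rw [div_mul_cancel₀ _ hl2.ne']
    rw [e1]
    exact hA

/-- The coordinates different from `i₁`, with the time and the side information. -/
def oth (i₁ : Fin m) (J : ℕ) (F : Fam m J) (y : (Fin m → ℤ) × (ℕ × F.ζ)) :
    (Fin m → ℤ) × (ℕ × F.ζ) := (Function.update y.1 i₁ 0, y.2)

/-- **The total.** -/
theorem row_f1 {S : PCl m} (hS : S.Ne)
    (hpos : ∀ (τ : ℝ) (J : ℕ) (F : Fam m J) (A : F.Ω → Prop), S.St τ J F A → 0 < Pe F.p A)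
    {i₁ : Fin m} {ρ : ℝ → ℝ} {a b : ℝ}
    (hρ : ∀ h : ℝ, 0 < h → Bas S (fun J F A =>
      |CH (Pool.Agent.H49.Ent.cond F.p A True) (fun ω => F.X ⌊(1 : ℝ) * J⌋₊ ω i₁)
        (fun ω => oth i₁ J F (ptr F J ω)) - ρ 1 * Real.log 2 * J| ≤ h * J))
    (ha : ∀ h : ℝ, 0 < h → Bas S (fun J F A =>
      CH (Pool.Agent.H49.Ent.cond F.p A True) (F.X J) F.W ≤ (a + h) * Real.log 2 * J))
    (hb : ∀ h : ℝ, 0 < h → Bas S (fun J F A => (b - h) * Real.log 2 * J ≤
      CH (Pool.Agent.H49.Ent.cond F.p A True) (fun ω => Function.update (F.X J ω) i₁ 0) F.W)) :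
    ρ 1 ≤ a - b := by
  have hl2 : 0 < Real.log 2 := Real.log_pos (by norm_num)
  by_contra hcon
  push Not at hcon
  obtain ⟨h, hh⟩ : ∃ h, h = (ρ 1 - (a - b)) / 4 := ⟨_, rfl⟩
  have hh0 : 0 < h := by rw [hh]; linarith
  obtain ⟨τ, hτ, J₁, hc⟩ := ((hρ (h * Real.log 2) (by positivity)).and (ha h hh0)).and (hb h hh0)
  obtain ⟨J, hJ, F, A, hA⟩ := hS τ hτ (max J₁ 1)
  obtain ⟨⟨k1, k2⟩, k3⟩ := hc J ((le_max_left _ _).trans hJ) F A hA
  have hpA := hpos τ J F A hA
  have hcl := isLaw_cond F.isLaw hpA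
  have hJ1 : (1 : ℝ) ≤ J := by exact_mod_cast (le_max_right _ _).trans hJ
  have e0 : ⌊(1 : ℝ) * J⌋₊ = J := by simp
  rw [e0] at k1
  have h1 := Pool.K2S.Rows.chain_det hcl.nonneg (F.X J)
    (fun ω => Function.update (F.X J ω) i₁ 0) F.W
    (fun ω ω' _ _ e => by
      show Function.update (F.X J ω) i₁ 0 = Function.update (F.X J ω') i₁ 0
      rw [show F.X J ω = F.X J ω' from e])
  have h2 : CH (Pool.Agent.H49.Ent.cond F.p A True) (F.X J)
      (fun ω => (Function.update (F.X J ω) i₁ 0, F.W ω)) =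
      CH (Pool.Agent.H49.Ent.cond F.p A True) (fun ω => F.X J ω i₁)
        (fun ω => oth i₁ J F (ptr F J ω)) := by
    refine CH_congr hcl.nonneg ?_ ?_ ?_ ?_
    · intro ω ω' _ _ e
      exact congrFun (Prod.ext_iff.1 e).1 i₁
    · intro ω ω' _ _ e
      have e1 : F.X J ω i₁ = F.X J ω' i₁ := (Prod.ext_iff.1 e).1
      have e2 : Function.update (F.X J ω) i₁ 0 = Function.update (F.X J ω') i₁ 0 :=
        (Prod.ext_iff.1 (Prod.ext_iff.1 e).2).1
      funext l
      by_cases hl : l = i₁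
      · rw [hl]; exact e1
      · have e3 := congrFun e2 l
        rwa [Function.update_of_ne hl, Function.update_of_ne hl] at e3
    · intro ω ω' _ _ e
      exact e
    · intro ω ω' _ _ e
      exact e
  rw [h2] at h1
  have k4 := (abs_le.1 k1).1
  have k5 : ρ 1 * Real.log 2 * J = (a - b) * Real.log 2 * J + 4 * (h * Real.log 2 * J) := by
    rw [hh]
    ring
  have k6 : 0 < h * Real.log 2 * J := by positivity
  have k7 : (a + h) * Real.log 2 * J - (b - h) * Real.log 2 * J =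
    (a - b) * Real.log 2 * J + 2 * (h * Real.log 2 * J) := by ring
  linarith

end Pool.GEN.N83
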