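import Pool.Agent.H1.GEN.Clx
import Pool.Agent.H45.EXA.Dwn

/-!
# The first coordinates of a family

`grax_prj`: the attained labels of the first `n` coordinates of a family with `n + 1` coordinates.
-/

set_option autoImplicit false

namespace Pool.GEN.N83

open Finset Real MvPolynomial Pool.GEN
open Pool.Agent.H49.Ent Pool.Agent.H32.Dense Pool.STK Pool.KA Pool.KSAT Pool.K2S Pool.PB Pool.S6C

variable {n J : ℕ}

/-- The variables, without the last one. -/
noncomputable def kf (n : ℕ) : Option (Fin (n + 1)) → MvPolynomial (Option (Fin n)) ℝ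
  | none => X none
  | some i => if h : (i : ℕ) < n then X (some ⟨i, h⟩) else 0

theorem kf_none : kf n none = X none := rfl

theorem kf_some (i : Fin (n + 1)) :
    kf n (some i) = if h : (i : ℕ) < n then X (some ⟨i, h⟩) else 0 := rfl

theorem kf_cs (i : Fin n) : kf n (some i.castSucc) = X (some i) := by
  rw [kf_some, dif_pos (show ((i.castSucc : Fin (n + 1)) : ℕ) < n from i.2)]
  rfl

theorem kf_last : kf n (some (Fin.last n)) = 0 := by
  rw [kf_some, dif_neg (show ¬ ((Fin.last n : Fin (n + 1)) : ℕ) < n by simp)]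

theorem kf_deg (o : Option (Fin (n + 1))) : (kf n o).totalDegree ≤ 1 := by
  rcases o with _ | i
  · rw [kf_none, totalDegree_X]
  · rw [kf_some]
    split_ifs
    · rw [totalDegree_X]
    · rw [totalDegree_zero]
      exact Nat.zero_le _

/-- The image of a variable. -/
def up (n : ℕ) : Option (Fin n) → Option (Fin (n + 1)) := Option.map Fin.castSucc

theorem kf_up (o : Option (Fin n)) : kf n (up n o) = X o := by
  rcases o with _ | i
  · rfl
  · exact kf_cs i

theorem up_inj : Function.Injective (up n) :=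
  Option.map_injective (Fin.castSucc_injective n)

/-- A point of the first coordinates, with zero last coordinate. -/
noncomputable def ex (b : Option (Fin n) → ℝ) : Option (Fin (n + 1)) → ℝ :=
  fun o => eval b (kf n o)

theorem ex_up (b : Option (Fin n) → ℝ) (o : Option (Fin n)) : ex b (up n o) = b o := by
  unfold ex
  rw [kf_up, eval_X]

theorem eval_kf (b : Option (Fin n) → ℝ) (G : MvPolynomial (Option (Fin (n + 1))) ℝ) :
    eval b (aeval (kf n) G) = eval (ex b) G := by
  rw [eval_aevalσ]
  rfl

/-- The derivatives. -/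
theorem pd_kf (b : Option (Fin n) → ℝ) (G : MvPolynomial (Option (Fin (n + 1))) ℝ)
    (o : Option (Fin n)) : eval b (pderiv o (aeval (kf n) G)) =
      eval (ex b) (pderiv (up n o) G) := by
  classical
  rw [pd_aeval, map_sum, Finset.sum_eq_single (up n o)]
  · rw [map_mul, eval_kf, kf_up, pderiv_X, Pi.single_eq_same, map_one, mul_one]
  · intro o' _ ho'
    rw [map_mul]
    have h1 : eval b (pderiv o (kf n o')) = 0 := by
      rcases o' with _ | i
      · rw [kf_none, pderiv_X]
        rcases o with _ | k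
        · exact absurd rfl ho'
        · rw [Pi.single_eq_of_ne (by simp), map_zero]
      · rw [kf_some]
        split_ifs with h
        · rw [pderiv_X, Pi.single_eq_of_ne, map_zero]
          rintro rfl
          exact ho' rfl
        · rw [map_zero, map_zero]
    rw [h1, mul_zero]
  · intro h
    exact absurd (Finset.mem_univ _) h

theorem ex_iio {j : Fin n} {i : Fin (n + 1)} (hi : i ∈ Finset.Iio j.castSucc) :
    ∃ i' : Fin n, i' ∈ Finset.Iio j ∧ i = i'.castSucc := by
  rw [Finset.mem_Iio, Fin.lt_def] at hi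
  have h1 : (i : ℕ) < n := lt_trans hi j.2
  exact ⟨⟨i, h1⟩, by rw [Finset.mem_Iio, Fin.lt_def]; exact hi, rfl⟩

theorem dep_kf {j : Fin n} {G : MvPolynomial (Option (Fin (n + 1))) ℝ}
    (hG : DepOn (Finset.Iio j.castSucc) G) : DepOn (Finset.Iio j) (aeval (kf n) G) := by
  intro b b' h0 h1
  rw [eval_kf, eval_kf]
  refine hG _ _ ?_ ?_
  · change ex b (up n none) = ex b' (up n none)
    rw [ex_up, ex_up, h0]
  · intro i hi
    obtain ⟨i', h2, rfl⟩ := ex_iio hi
    change ex b (up n (some i')) = ex b' (up n (some i'))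
    rw [ex_up, ex_up, h1 i' h2]

theorem dep_pd_kf {j : Fin n} {G : MvPolynomial (Option (Fin (n + 1))) ℝ}
    (hG : DepOn (Finset.Iio j.castSucc) G) (o : Option (Fin (n + 1)))
    (b b' : Option (Fin (n + 1)) → ℝ) (h : ∀ o : Option (Fin n), b (up n o) = b' (up n o)) :
    eval b (pderiv o G) = eval b' (pderiv o G) := by
  refine dep_pd G (fun o => o = none ∨ ∃ i ∈ Finset.Iio j.castSucc, o = some i) ?_ o b b' ?_
  · intro c c' hc
    exact hG c c' (hc none (Or.inl rfl)) fun i hi => hc (some i) (Or.inr ⟨i, hi, rfl⟩)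
  · rintro o' (rfl | ⟨i, hi, rfl⟩)
    · exact h none
    · obtain ⟨i', -, rfl⟩ := ex_iio hi
      exact h (some i')

/-- The restricted numbers. -/
def sV {n : ℕ} (s : Fin (n + 1) → ℝ) : Fin n → ℝ := fun j => s j.castSucc

theorem rad_sV (s : Fin (n + 1) → ℝ) (w : ℝ) (j : Fin n) : rad (sV s) w j = rad s w j.castSucc := by
  unfold rad sV
  by_cases h : (j : ℕ) = 0
  · rw [if_pos h, if_pos (show ((j.castSucc : Fin (n + 1)) : ℕ) = 0 from h)]
  · rw [if_neg h, if_neg (show ¬ ((j.castSucc : Fin (n + 1)) : ℕ) = 0 from h)]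
    rfl

theorem numX_sV {s : Fin (n + 1) → ℝ} {d : ℕ → ℝ} (h : NumX s d) : NumX (sV s) d :=
  ⟨fun a b hab => h.ms (by rw [Fin.le_def]; exact hab), fun j => h.s0 _, fun j => h.s1 _,
    fun j hj => h.z _ hj, h.d0⟩

/-- **The attained labels of the first coordinates.** -/
theorem grax_prj {K : ℕ} {e : ℝ} {s : Fin (n + 1) → ℝ} {F : Fam (n + 1) J}
    (h : GraX K e s J F) : GraX K e (sV s) J (prj F Fin.castSucc) := by
  classical
  obtain ⟨G, h1, h2⟩ := h
  refine ⟨fun z j k => aeval (kf n) (G z j.castSucc k.castSucc), fun z j k => ⟨?_, ?_⟩,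
    fun ω hω j k hjk => ⟨?_, fun b hb o => ?_⟩⟩
  · have := totalDegree_aevalσ (g := kf n) kf_deg (h1 z j.castSucc k.castSucc).1
    simpa using this
  · exact dep_kf (h1 z j.castSucc k.castSucc).2
  · have hx := (h2 ω hω j.castSucc k.castSucc (by rw [Fin.le_def]; exact hjk)).1
    rw [eval_kf]
    have e1 : eval (ex (bt (prj F Fin.castSucc) ω)) (G (F.Z ω) j.castSucc k.castSucc) =
        eval (bt F ω) (G (F.Z ω) j.castSucc k.castSucc) := by
      refine (h1 (F.Z ω) j.castSucc k.castSucc).2 _ _ ?_ ?_
      · change ex _ (up n none) = _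
        rw [ex_up]
        rfl
      · intro i hi
        obtain ⟨i', -, rfl⟩ := ex_iio hi
        change ex _ (up n (some i')) = _
        rw [ex_up]
        rfl
    change |F.x ω k.castSucc - eval (ex (bt (prj F Fin.castSucc) ω))
      (G (F.Z ω) j.castSucc k.castSucc)| ≤ _
    rw [e1]
    exact hx
  · have hl := (h2 ω hω j.castSucc k.castSucc (by rw [Fin.le_def]; exact hjk)).2
    rw [pd_kf]
    obtain ⟨c, hc⟩ : ∃ c : Option (Fin (n + 1)) → ℝ, c = fun o => match o with
      | none => b none
      | some i => if h : (i : ℕ) < n then b (some ⟨i, h⟩) else F.x ω i := ⟨_, rfl⟩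
    have hcu : ∀ o : Option (Fin n), c (up n o) = b o := by
      intro o
      rw [hc]
      rcases o with _ | i
      · rfl
      · change (if h : ((i.castSucc : Fin (n + 1)) : ℕ) < n then _ else _) = _
        rw [dif_pos (show ((i.castSucc : Fin (n + 1)) : ℕ) < n from i.2)]
        rfl
    change |eval (ex b) (pderiv (up n o) (G (F.Z ω) j.castSucc k.castSucc))| ≤ _
    rw [dep_pd_kf (h1 (F.Z ω) j.castSucc k.castSucc).2 (up n o) (ex b) c (fun o' => by
      rw [ex_up, hcu])]
    refine hl c ?_ (up n o)
    intro o'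
    have hr : rad s 0 j.castSucc = rad (sV s) 0 j := (rad_sV s 0 j).symm
    rcases o' with _ | i
    · have := hb none
      rw [hr]
      have e1 : c none = b none := hcu none
      rw [e1]
      exact this
    · by_cases hi : (i : ℕ) < n
      · have := hb (some ⟨i, hi⟩)
        rw [hr]
        have e1 : c (some i) = b (some ⟨i, hi⟩) := hcu (some ⟨i, hi⟩)
        rw [e1]
        exact this
      · have e1 : c (some i) = F.x ω i := by
          rw [hc]
          change (if h : (i : ℕ) < n then _ else _) = _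
          rw [dif_neg hi]
        rw [e1]
        change |F.x ω i - F.x ω i| ≤ _
        rw [sub_self, abs_zero]
        positivity

end Pool.GEN.N83
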