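import Pool.Agent.H45.EXA.Prj
import Pool.Agent.H45.EXA.Zfb
import Pool.Agent.H64.KS6.WfeA
import Pool.Agent.H83.GN.PrjG
import Pool.Agent.H83.GN.Num

/-!
# The first coordinates in the classes of the exactness theorem

`d1x`: if the exactness theorem holds in dimension `n`, then in the classes `ClX` of dimension
`n + 1` with small slack the first `n` coordinates of the positions are almost full, given any
function which is closed at small windows.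
`f1x`: for a counterexample of dimension `n + 1`, the rate of the last coordinate given the other
coordinates is at most `1 - s (last) - ρ`, up to an error which tends to zero with the slack.
-/

set_option autoImplicit false

namespace Pool.GEN.N83

open Finset Real MvPolynomial Pool.GEN
open Pool.Agent.H49.Ent Pool.Agent.H32.Dense Pool.STK Pool.KA Pool.KSAT Pool.K2S Pool.PB Pool.S6C

variable {m n J : ℕ}

/-! ### Additional side information -/

/-- The windows in smaller windows. -/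
theorem T1_crs (F : Fam m J) {W w : ℕ} (h : W ≤ w) (ω : F.Ω) :
    F.T1 W ω = F.T1 w ω / 2 ^ ((J - W) - (J - w)) := by
  unfold Fam.T1
  rw [Nat.div_div_eq_div_mul, ← pow_add]
  congr 2
  omega

/-- Additional side information which is a function of the line in its window. -/
theorem tm_cnd {F : Fam m J} {e : ℝ} (he : F.Tm e) {V : Type} (g : F.Ω → V) {W : ℕ} (hW : W ≤ J)
    (hg : ∀ ω ω', 0 < F.p ω → 0 < F.p ω' → slam F W ω = slam F W ω' → g ω = g ω') :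
    (F.cnd g).Tm (e + W * Real.log 2) := by
  have hp := F.isLaw
  unfold Fam.Tm at he ⊢
  change (J : ℝ) * Real.log 2 - (e + W * Real.log 2) ≤
    CH F.p F.T (fun ω => (F.l ω, (g ω, F.Z ω)))
  have h1 : Det F.p F.T (F.T1 W) := by
    intro ω ω' _ _ hh
    show F.T ω / 2 ^ (J - W) = F.T ω' / 2 ^ (J - W)
    rw [hh]
  have h2 := Rows.chain_det hp.nonneg F.T (F.T1 W) (fun ω => (F.l ω, F.Z ω)) h1
  have h3 : CH F.p F.T (fun ω => (F.T1 W ω, (F.l ω, F.Z ω))) ≤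
      CH F.p F.T (fun ω => (F.l ω, (g ω, F.Z ω))) := by
    refine CH_mono_cond hp.nonneg ?_
    intro ω ω' h4 h5 hh
    have h6 := Prod.ext_iff.1 hh
    have h7 := Prod.ext_iff.1 h6.2
    simp only at h6 h7
    refine Prod.ext h7.1 (Prod.ext (hg ω ω' h4 h5 ?_) h7.2)
    exact Prod.ext h7.1 (Prod.ext h7.2 h6.1)
  have h4 : CH F.p (F.T1 W) (fun ω => (F.l ω, F.Z ω)) ≤ W * Real.log 2 := by
    have h5 := CH_le_card hp.nonneg hp.sum_one (F.T1 W) (fun ω => (F.l ω, F.Z ω))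
      (fun _ => Finset.range (2 ^ W)) (fun ω _ => by
        rw [Finset.mem_range]
        exact Win.T1_lt F W hW ω)
    refine h5.trans (le_of_eq ?_)
    have h6 : (fun _ : F.Ω => Real.log ((Finset.range (2 ^ W)).card : ℝ)) =
        fun _ => (W : ℝ) * Real.log 2 := by
      funext _
      rw [Finset.card_range]
      push_cast
      rw [Real.log_pow]
    rw [h6]
    unfold Ex
    rw [← Finset.sum_mul, hp.sum_one, one_mul]
  linarith

/-- The labels with additional closed side information. -/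
theorem lb_cnd {F : Fam m J} {I : Finset (Fin m)} {k : Fin m} {K e w ρ P : ℕ} {B : F.Ω → Prop}
    {V : Type} {z₀ : PtT F → V} {z₀' : LnT F → V} {W : ℕ} (hW : W ≤ w)
    (hc : ∀ ω, B ω → z₀ (ptr F J ω) = z₀' (slam F W ω))
    (h : Lb (F.cnd fun ω => z₀' (slam F W ω)) I k K e J w ρ P B) :
    Lb F I k K e J w ρ P B := by
  obtain ⟨V', z, z', G, h⟩ := h
  obtain ⟨z₁, hz₁⟩ : ∃ z₁ : PtT F → V', z₁ = fun y => z (y.1, (y.2.1, (z₀ y, y.2.2))) := ⟨_, rfl⟩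
  obtain ⟨z₁', hz₁'⟩ : ∃ z₁' : LnT F → V', z₁' = fun s =>
      z' (s.1, ((z₀' (s.1, (s.2.1, s.2.2 / 2 ^ ((J - W) - (J - w)))), s.2.1), s.2.2)) := ⟨_, rfl⟩
  have e1 : ∀ ω, B ω → z₁ (ptr F J ω) =
      z (ptr (F.cnd fun ω => z₀' (slam F W ω)) J ω) := by
    intro ω hω
    rw [hz₁]
    show z ((ptr F J ω).1, ((ptr F J ω).2.1, (z₀ (ptr F J ω), (ptr F J ω).2.2))) = _
    rw [hc ω hω]
    rfl
  have e2 : ∀ ω, z₁' (slam F w ω) = z' (slam (F.cnd fun ω => z₀' (slam F W ω)) w ω) := by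
    intro ω
    rw [hz₁']
    show z' (F.l ω, ((z₀' (F.l ω, (F.Z ω, F.T1 w ω / 2 ^ ((J - W) - (J - w)))), F.Z ω),
      F.T1 w ω)) = z' (F.l ω, ((z₀' (F.l ω, (F.Z ω, F.T1 W ω)), F.Z ω), F.T1 w ω))
    rw [← T1_crs F hW]
  refine ⟨V', z₁, z₁', G, h.deg, h.dep, fun ω hω => ?_, fun ω hω => ?_, fun ω hω => ?_,
    fun ω hω => ?_⟩
  · rw [e1 ω hω, e2]
    exact h.cls ω hω
  · rw [e2]
    exact h.pos ω hω
  · rw [e2]
    exact h.vel ω hω
  · rw [e2]
    exact h.lip ω hω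

/-- The velocities with additional closed side information. -/
theorem actF_cnd {F : Fam m J} {N : ℚ → ℚ → ℝ} {q q' : ℚ} {h : ℝ} {k : Fin m} {B : F.Ω → Prop}
    (hP : 0 < Pe F.p B) {V : Type} (g : F.Ω → V) {z₀ : PtT F → V}
    (hc : ∀ ω, 0 < F.p ω → g ω = z₀ (ptr F J ω))
    (hA : ActF N q q' h k J (F.cnd g) B) : ActF N q q' h k J F B := by
  unfold ActF at hA ⊢
  refine lt_of_le_of_lt ?_ hA
  refine CH_mono_cond (isLaw_cond F.isLaw hP).nonneg fun ω ω' h1 h2 hh => ?_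
  have hω := ((cond_pos_iff F.isLaw.nonneg B True ω).1 h1).1
  have hω' := ((cond_pos_iff F.isLaw.nonneg B True ω').1 h2).1
  have h3 := Prod.ext_iff.1 hh
  have h4 := Prod.ext_iff.1 h3.2
  have h5 := Prod.ext_iff.1 h4.2
  simp only at h3 h4 h5
  refine Prod.ext h3.1 (Prod.ext h4.1 (Prod.ext h5.1 (Prod.ext ?_ h5.2)))
  show g ω = g ω'
  rw [hc ω hω, hc ω' hω']
  congr 1
  exact Prod.ext h4.1 h4.2

theorem grax_cnd {K : ℕ} {e : ℝ} {s : Fin n → ℝ} {F : Fam n J} (h : GraX K e s J F)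
    {V : Type} (g : F.Ω → V) : GraX K e s J (F.cnd g) := by
  obtain ⟨G, h1, h2⟩ := h
  exact ⟨fun z => G z.2, fun z => h1 z.2, fun ω hω j k hjk => h2 ω hω j k hjk⟩

/-! ### Statements on the large events of the projections -/

/-- The first coordinates of a part of a family, with side information. -/
noncomputable def pv {V : Type} (F : Fam (n + 1) J) (A : F.Ω → Prop) (g : F.Ω → V)
    (hl : IsLaw (Pool.Agent.H49.Ent.cond F.p A True)) : Fam n J :=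
  prj ((F.res A True hl).cnd g) Fin.castSucc

/-- The statement holds for the large events of the projections of the families of the class, for
any side information which is closed at windows up to `D`. -/
def CBas (S : PCl (n + 1)) (D : ℝ) (Φ : Stat n) : Prop :=
  ∃ τ₀ : ℝ, 0 < τ₀ ∧ ∃ J₀ : ℕ, ∀ J ≥ J₀, ∀ (F : Fam (n + 1) J) (A : F.Ω → Prop),
    S.St τ₀ J F A → ∀ W : ℕ, W ≤ ⌊D * J⌋₊ → ∀ (V : Type) (z : PtT F → V) (z' : LnT F → V),
    (∀ ω, A ω → z (ptr F J ω) = z' (slam F W ω)) →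
    ∀ (hl : IsLaw (Pool.Agent.H49.Ent.cond F.p A True)) (B : F.Ω → Prop),
    Real.exp (-(τ₀ * J)) ≤ Pe (Pool.Agent.H49.Ent.cond F.p A True) B →
    Φ J (pv F A (fun ω => z' (slam F W ω)) hl) B

/-- From the statements for the class. -/
theorem cbas_of {S : PCl (n + 1)} {D : ℝ} {Ψ : Stat (n + 1)} {Φ : Stat n}
    (hpos : ∀ (τ : ℝ) (J : ℕ) (F : Fam (n + 1) J) (A : F.Ω → Prop), S.St τ J F A → 0 < Pe F.p A)
    (h : Bas S Ψ) (hΨ : ∀ (J : ℕ) (F : Fam (n + 1) J) (A B : F.Ω → Prop) (W : ℕ),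
      W ≤ ⌊D * J⌋₊ → ∀ (V : Type) (z : PtT F → V) (z' : LnT F → V),
      (∀ ω, A ω → z (ptr F J ω) = z' (slam F W ω)) →
      ∀ (hl : IsLaw (Pool.Agent.H49.Ent.cond F.p A True)),
      0 < Pe (Pool.Agent.H49.Ent.cond F.p A True) B →
      Ψ J F (fun ω => A ω ∧ B ω) → Φ J (pv F A (fun ω => z' (slam F W ω)) hl) B) :
    CBas S D Φ := by
  obtain ⟨τ, hτ, J₁, h⟩ := h
  refine ⟨τ / 2, half_pos hτ, J₁, fun J hJ F A hS W hW V z z' hc hl B hB => ?_⟩
  have hA := hpos _ J F A hS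
  have hB0 : 0 < Pe (Pool.Agent.H49.Ent.cond F.p A True) B := lt_of_lt_of_le (Real.exp_pos _) hB
  refine hΨ J F A B W hW V z z' hc hl hB0 ?_
  rw [Pe_cond, le_div_iff₀ hA] at hB
  have h1 := S.res (half_pos hτ).le hS (B := fun ω => A ω ∧ B ω) (fun _ hω => hω.1) hB
  refine h J hJ F _ ?_
  have e1 : τ / 2 + τ / 2 = τ := by ring
  rwa [e1] at h1

theorem CBas.mono {S : PCl (n + 1)} {D : ℝ} {Φ Φ' : Stat n} (h : CBas S D Φ)
    (hΦ : ∀ (J : ℕ) (F : Fam n J) (A : F.Ω → Prop), Φ J F A → Φ' J F A) : CBas S D Φ' := by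
  obtain ⟨τ₀, hτ₀, J₀, h⟩ := h
  exact ⟨τ₀, hτ₀, J₀, fun J hJ F A hS W hW V z z' hc hl B hB =>
    hΦ _ _ _ (h J hJ F A hS W hW V z z' hc hl B hB)⟩

/-- Finitely many statements. -/
theorem CBas.le {S : PCl (n + 1)} {D : ℝ} {Φ : ℕ → Stat n} (N : ℕ) (h : ∀ c, CBas S D (Φ c)) :
    CBas S D (fun J F A => ∀ c ≤ N, Φ c J F A) := by
  choose τ₀ hτ₀ J₀ h using h
  obtain ⟨τm, hτm, hτm'⟩ := fmin45 N τ₀ hτ₀
  refine ⟨τm, hτm, ∑ c ∈ range (N + 1), J₀ c, ?_⟩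
  intro J hJ₀ F A hS W hW V z z' hc hl B hB c hcN
  refine h c J ((Finset.single_le_sum (f := J₀) (fun _ _ => Nat.zero_le _)
    (Finset.mem_range.2 (by omega))).trans hJ₀) F A (S.mono (hτm' c hcN) hS) W hW V z z' hc hl B ?_
  refine le_trans (Real.exp_le_exp.2 ?_) hB
  have h3 := mul_le_mul_of_nonneg_right (hτm' c hcN) (Nat.cast_nonneg (α := ℝ) J)
  linarith

/-- Two statements. -/
theorem CBas.and {S : PCl (n + 1)} {D : ℝ} {Φ Φ' : Stat n} (h : CBas S D Φ) (h' : CBas S D Φ') :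
    CBas S D (fun J F A => Φ J F A ∧ Φ' J F A) := by
  have h1 : CBas S D (fun J F A => ∀ c ≤ 1, (if c = 0 then Φ else Φ' : Stat n) J F A) :=
    CBas.le 1 (fun c => by
      split_ifs
      · exact h
      · exact h')
  refine h1.mono fun J F A h2 => ⟨?_, ?_⟩
  · have := h2 0 (by norm_num)
    simpa using this
  · have := h2 1 le_rfl
    simpa using this

/-- **The velocities of the projections are active.** -/
theorem cbas_act {S : PCl (n + 1)} {D : ℝ}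
    (hpos : ∀ (τ : ℝ) (J : ℕ) (F : Fam (n + 1) J) (A : F.Ω → Prop), S.St τ J F A → 0 < Pe F.p A)
    {N : ℚ → ℚ → ℝ} (hN : ∀ k : Fin (n + 1), (k : ℕ) = 0 → ActB N S k)
    {h : ℝ} (hh : 0 < h) (i : ℕ) : CBas S D (fun J G B =>
      ∀ (q q' : ℚ) (k : Fin n), (k : ℕ) = 0 → Encodable.encode (q, q') ≤ i → 0 ≤ q → q ≤ q' →
        q' ≤ 1 → ¬ ActF N q q' h k J G B) := by
  have hact : ∀ c : ℕ, CBas S D (fun J G B =>
      ∀ (q q' : ℚ) (k : Fin n), (k : ℕ) = 0 → Encodable.encode (q, q') = c → 0 ≤ q → q ≤ q' →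
        q' ≤ 1 → ¬ ActF N q q' h k J G B) := by
    intro c
    by_cases hc : ∃ (q q' : ℚ) (k : Fin n), (k : ℕ) = 0 ∧ Encodable.encode (q, q') = c ∧ 0 ≤ q ∧
        q ≤ q' ∧ q' ≤ 1
    · obtain ⟨q, q', k, hk, hqc, h0, h1, h2⟩ := hc
      refine cbas_of hpos (hN k.castSucc hk q q' h0 h1 h2 h hh) ?_
      intro J F A B W _ V z z' hcl hl hB hΨ p p' k' hk' hpc _ _ _ hbad
      have e1 : (p, p') = (q, q') := Encodable.encode_injective (hpc.trans hqc.symm)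
      obtain ⟨rfl, rfl⟩ := Prod.ext_iff.1 e1
      have e2 : k' = k := Fin.ext (hk'.trans hk.symm)
      rw [e2] at hbad
      have b1 : ActF N p p' h k.castSucc J ((F.res A True hl).cnd fun ω => z' (slam F W ω)) B :=
        actF_prj (F := (F.res A True hl).cnd fun ω => z' (slam F W ω)) hbad hB
      have b2 : ActF N p p' h k.castSucc J (F.res A True hl) B :=
        actF_cnd (F := F.res A True hl) hB (fun ω => z' (slam F W ω)) (z₀ := z)
          (fun ω hω => (hcl ω (of_eq_true ((cond_pos_iff F.isLaw.nonneg A True ω).1 hω).2)).symm) b1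
      unfold ActF at b2
      have b3 := cond_part_eq hl B
      have b4 : CH (Pool.Agent.H49.Ent.cond F.p (fun ω => A ω ∧ B ω) True)
          (fun ω => F.D ⌊((p' : ℚ) : ℝ) * J⌋₊ ω k.castSucc)
          (fun ω => (F.D ⌊((p : ℚ) : ℝ) * J⌋₊ ω, (F.X J ω, F.W ω))) <
          (N p p' - h) * Real.log 2 * J := by
        rw [← b3]
        exact b2
      linarith
    · refine ⟨1, one_pos, 0, ?_⟩
      intro J _ F A _ W _ V z z' _ hl B _ q q' k hk hqc h0 h1 h2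
      exact absurd ⟨q, q', k, hk, hqc, h0, h1, h2⟩ hc
  refine (CBas.le i hact).mono fun J G B h1 q q' k hk hqc => ?_
  exact h1 _ hqc q q' k hk rfl

/-- **The better labels of the projections are absent.** -/
theorem cbas_btr {S : PCl (n + 1)} {D : ℝ}
    (hpos : ∀ (τ : ℝ) (J : ℕ) (F : Fam (n + 1) J) (A : F.Ω → Prop), S.St τ J F A → 0 < Pe F.p A)
    {s : Fin (n + 1) → ℝ} {d h : ℝ} {K : ℕ} (hD : D ≤ d)
    (hb : Bas S (fun J F A => ¬ BtrX s d h K J F A)) :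
    CBas S D (fun J G B => ¬ BtrX (sV s) d h K J G B) := by
  classical
  refine cbas_of hpos hb ?_
  rintro J F A B W hW V z z' hcl hl hB hΨ ⟨j, h1, h2⟩
  refine hΨ ⟨j.castSucc, h1, ?_⟩
  have hWd : W ≤ ⌊d * J⌋₊ := hW.trans (Nat.floor_le_floor
    (mul_le_mul_of_nonneg_right hD (Nat.cast_nonneg J)))
  have b1 := lb_prj (F := (F.res A True hl).cnd fun ω => z' (slam F W ω))
    (Fin.castSucc_injective n) h2
  have b2 := Lb.hered ((F.res A True hl).cnd fun ω => z' (slam F W ω)) _ _ _ _ _ _ _ _ B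
    (fun ω => A ω ∧ B ω) (fun _ hω => hω.2) b1
  have b3 := lb_cnd (F := F.res A True hl) hWd (z₀ := z) (z₀' := z') (B := fun ω => A ω ∧ B ω)
    (fun ω hω => hcl ω hω.1) b2
  have b4 := lb_part hl b3
  have b5 := Lb.hered F _ _ _ _ _ _ _ _ _ (fun ω => A ω ∧ B ω)
    (fun _ hω => ⟨hω.1, hω⟩) b4
  rw [rad_sV] at b5
  obtain ⟨V', y, y', G, hG⟩ := b5
  refine ⟨V', y, y', G, hG.mono ?_ le_rfl le_rfl le_rfl le_rfl⟩
  intro i hi
  obtain ⟨i', hi', rfl⟩ := Finset.mem_image.1 hi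
  rw [Finset.mem_Iio] at hi' ⊢
  rw [Fin.lt_def] at hi' ⊢
  exact hi'

/-! ### The exactness of the first coordinates -/

theorem dmin {d : ℕ → ℝ} (hd : ∀ l, 0 < d l) {e : ℝ} (he : 0 < e) :
    ∃ D : ℝ, 0 < D ∧ ∀ l : ℕ, e ≤ 1 / ((l : ℝ) + 1) → D ≤ d l := by
  obtain ⟨L, hL⟩ := exists_nat_gt (1 / e)
  obtain ⟨D, hD, hD'⟩ := fmin45 L d hd
  refine ⟨D, hD, fun l hl => hD' l ?_⟩
  have h1 : (l : ℝ) + 1 ≤ 1 / e := by
    rw [le_div_iff₀ he]
    rw [le_div_iff₀ (by positivity)] at hl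
    linarith
  have h2 : (l : ℝ) ≤ L := by linarith
  exact_mod_cast h2

/-- The time deficit of the members of the classes. -/
theorem clx_tmc {m : ℕ} {s : Fin m → ℝ} {d : ℕ → ℝ} {al : ℝ} {g₀ : ℝ → ℝ} {e : ℝ} {K₀ : ℕ}
    {N : ℚ → ℚ → ℝ} {S : PCl m} (h : ClX s d al g₀ e K₀ N S) : TmC S 6 := by
  intro τ J F A hτ hS
  obtain ⟨h1, h2, h3, h4, -⟩ := h.mem τ J F A hS
  refine ⟨h.pos τ J F A hS, fun hl => ?_⟩
  have h5 := Pool.S6K.Wfe.res_Tm hτ.le hτ.le h1 h2 h3 h4 hl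
  have e1 : (5 * τ + τ) * (J : ℝ) = 6 * τ * J := by ring
  rwa [e1] at h5

/-- **The first coordinates are almost full**, given any function which is closed at small
windows. -/
theorem d1x {n : ℕ} (hF : FZX n) {ρ' al : ℝ} (hρ' : 0 < ρ') (hal : 0 < al) {g₀ : ℝ → ℝ}
    (hg₀ : ∀ ε : ℝ, 0 < ε → 0 < g₀ ε) {s : Fin (n + 1) → ℝ} {d : ℕ → ℝ} (hsd : NumX s d) :
    ∃ e : ℝ, 0 < e ∧ ∀ (K₀ : ℕ) (N : ℚ → ℚ → ℝ) (S : PCl (n + 1)), ClX s d al g₀ e K₀ N S →
    ∃ w₀ : ℝ, 0 < w₀ ∧ Bas S (fun J F A => ∀ W : ℕ, W ≤ ⌊w₀ * J⌋₊ →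
      ∀ (V : Type) (z : PtT F → V) (z' : LnT F → V),
      (∀ ω, A ω → z (ptr F J ω) = z' (slam F W ω)) →
      ((∑ j : Fin n, (1 - s j.castSucc)) - ρ') * Real.log 2 * J ≤
        CH (Pool.Agent.H49.Ent.cond F.p A True) (fun ω (j : Fin n) => F.X J ω (Fin.castSucc j))
          (fun ω => (z' (slam F W ω), F.W ω))) := by
  have hl2 : 0 < Real.log 2 := Real.log_pos one_lt_two
  have hl21 : Real.log 2 ≤ 1 := by
    have := Real.log_two_lt_d9
    linarith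
  obtain ⟨e, he, hmain⟩ := hF ρ' al hρ' hal g₀ hg₀ (sV s) d (numX_sV hsd)
  refine ⟨e, he, fun K₀ N S h => ?_⟩
  obtain ⟨D, hD, hD'⟩ := dmin hsd.d0 he
  have hpos := h.pos
  have hbad : ∀ i : ℕ, CBas S D (fun J G B => ¬ FBadX N (sV s) d e i J G B) := by
    intro i
    have hi0 : (0 : ℝ) < 1 / ((i : ℝ) + 1) := by positivity
    have h1 := cbas_act (D := D) hpos h.actb hi0 i
    have h2 : ∀ l : ℕ, CBas S D (fun J G B => e ≤ 1 / ((l : ℝ) + 1) →
        ¬ BtrX (sV s) (d l) (1 / ((l : ℝ) + 1)) i J G B) := by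
      intro l
      by_cases hl : e ≤ 1 / ((l : ℝ) + 1)
      · exact (cbas_btr hpos (hD' l hl) (h.btr l i hl)).mono fun J G B h3 _ => h3
      · exact ⟨1, one_pos, 0, fun J _ F A _ W _ V z z' _ hl' B _ h3 => absurd h3 hl⟩
    refine (h1.and (CBas.le i h2)).mono fun J G B h3 hbad => ?_
    rcases hbad with ⟨q, q', k, a1, a2, a3, a4, a5, a6⟩ | ⟨l, a1, a2, a3⟩
    · exact h3.1 q q' k a1 a2 a3 a4 a5 a6
    · exact h3.2 l a1 a2 a3
  choose τb hτb Jb hbad using hbad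
  obtain ⟨η, hη, M, J₁, hZ⟩ := hmain K₀ N h.actm (fun i => τb i / 3) (fun i => by
    have := hτb i
    positivity)
  obtain ⟨τm, hτm, hτm'⟩ := fmin45 M τb hτb
  obtain ⟨τ, hτ⟩ : ∃ τ, τ = min τm (η / 12) := ⟨_, rfl⟩
  have hτ0 : 0 < τ := by
    rw [hτ]
    exact lt_min hτm (by positivity)
  have t1 : τ ≤ τm := by rw [hτ]; exact min_le_left _ _
  have t2 : τ ≤ η / 12 := by rw [hτ]; exact min_le_right _ _
  obtain ⟨w₀, hw₀⟩ : ∃ w₀, w₀ = min (min D (η / 2)) 1 := ⟨_, rfl⟩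
  have hw0 : 0 < w₀ := by
    rw [hw₀]
    exact lt_min (lt_min hD (by positivity)) one_pos
  have w1 : w₀ ≤ D := by rw [hw₀]; exact (min_le_left _ _).trans (min_le_left _ _)
  have w2 : w₀ ≤ η / 2 := by rw [hw₀]; exact (min_le_left _ _).trans (min_le_right _ _)
  have w3 : w₀ ≤ 1 := by rw [hw₀]; exact min_le_right _ _
  refine ⟨w₀, hw0, τ, hτ0, max (∑ i ∈ range (M + 1), Jb i) J₁, ?_⟩
  intro J hJ F A hS W hW V z z' hcl
  have hJr : (0 : ℝ) ≤ J := Nat.cast_nonneg J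
  have hJb : ∑ i ∈ range (M + 1), Jb i ≤ J := (le_max_left _ _).trans hJ
  obtain ⟨hA, hTm⟩ := clx_tmc h τ J F A hτ0 hS
  have hl := isLaw_cond F.isLaw hA
  obtain ⟨-, -, -, -, hGd, hGra, -⟩ := h.mem τ J F A hS
  have hWr : (W : ℝ) ≤ w₀ * J := by
    have h1 : (W : ℝ) ≤ (⌊w₀ * (J : ℝ)⌋₊ : ℝ) := by exact_mod_cast hW
    exact h1.trans (Nat.floor_le (by positivity))
  have hWJ : W ≤ J := by
    have h1 : (W : ℝ) ≤ J := hWr.trans (by nlinarith)
    exact_mod_cast h1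
  have hWD : W ≤ ⌊D * (J : ℝ)⌋₊ := hW.trans (Nat.floor_le_floor (mul_le_mul_of_nonneg_right w1 hJr))
  have hTm' : (pv F A (fun ω => z' (slam F W ω)) hl).Tm (η * J) := by
    have h1 : ((F.res A True hl).cnd fun ω => z' (slam F W ω)).Tm
        (6 * τ * J + W * Real.log 2) :=
      tm_cnd (hTm hl) (fun ω => z' (slam F W ω)) hWJ (fun ω ω' _ _ hh => congrArg z' hh)
    unfold Fam.Tm at h1 ⊢
    have h2 : CH ((F.res A True hl).cnd fun ω => z' (slam F W ω)).p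
        ((F.res A True hl).cnd fun ω => z' (slam F W ω)).T
        (fun ω => (((F.res A True hl).cnd fun ω => z' (slam F W ω)).l ω,
          ((F.res A True hl).cnd fun ω => z' (slam F W ω)).Z ω)) ≤
        CH (pv F A (fun ω => z' (slam F W ω)) hl).p (pv F A (fun ω => z' (slam F W ω)) hl).T
        (fun ω => ((pv F A (fun ω => z' (slam F W ω)) hl).l ω,
          (pv F A (fun ω => z' (slam F W ω)) hl).Z ω)) := by
      refine CH_mono_cond hl.nonneg fun ω ω' _ _ hh => ?_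
      have h3 := Prod.ext_iff.1 hh
      have h4 := Prod.ext_iff.1 h3.1
      refine Prod.ext (Prod.ext ?_ ?_) h3.2
      · funext i
        exact congrFun h4.1 i.castSucc
      · funext i
        exact congrFun h4.2 i.castSucc
    refine le_trans ?_ (h1.trans h2)
    have h5 : (W : ℝ) * Real.log 2 ≤ η / 2 * J := by
      have h6 : (W : ℝ) * Real.log 2 ≤ W * 1 :=
        mul_le_mul_of_nonneg_left hl21 (Nat.cast_nonneg W)
      have h7 : w₀ * (J : ℝ) ≤ η / 2 * J := mul_le_mul_of_nonneg_right w2 hJr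
      linarith
    have h6 : 6 * τ * (J : ℝ) ≤ η / 2 * J := mul_le_mul_of_nonneg_right (by linarith) hJr
    have e1 : η * (J : ℝ) = η / 2 * J + η / 2 * J := by ring
    linarith
  have hGra' : GraX K₀ e (sV s) J (pv F A (fun ω => z' (slam F W ω)) hl) :=
    grax_prj (grax_cnd (hGra.res A True hl) _)
  have hGd' : Gd (pv F A (fun ω => z' (slam F W ω)) hl) := fun ω i => hGd ω i.castSucc
  rcases hZ J ((le_max_right _ _).trans hJ) _ hTm' hGd' hGra' with ⟨i, hi, B, hB, hb⟩ | h1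
  · exfalso
    have hJi : Jb i ≤ J := (Finset.single_le_sum (f := Jb) (fun _ _ => Nat.zero_le _)
      (Finset.mem_range.2 (by omega))).trans hJb
    refine hbad i J hJi F A (S.mono (t1.trans (hτm' i hi)) hS) W hWD V z z' hcl hl B ?_ hb
    have e1 : 3 * (τb i / 3) * (J : ℝ) = τb i * J := by ring
    rw [e1] at hB
    exact hB
  · refine le_trans h1 ?_
    refine CH_mono_cond hl.nonneg fun ω ω' _ _ hh => ?_
    have h3 := Prod.ext_iff.1 hh
    have h4 := Prod.ext_iff.1 h3.2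
    exact Prod.ext h4.1 (Prod.ext h3.1 h4.2)

/-- **The first coordinates are almost full.** -/
theorem vlow {n : ℕ} (hF : FZX n) {ρ' al : ℝ} (hρ' : 0 < ρ') (hal : 0 < al) {g₀ : ℝ → ℝ}
    (hg₀ : ∀ ε : ℝ, 0 < ε → 0 < g₀ ε) {s : Fin (n + 1) → ℝ} {d : ℕ → ℝ} (hsd : NumX s d) :
    ∃ e : ℝ, 0 < e ∧ ∀ (K₀ : ℕ) (N : ℚ → ℚ → ℝ) (S : PCl (n + 1)), ClX s d al g₀ e K₀ N S →
      Bas S (fun J F A => ((∑ j : Fin n, (1 - s j.castSucc)) - ρ') * Real.log 2 * J ≤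
        CH (Pool.Agent.H49.Ent.cond F.p A True)
          (fun ω => Function.update (F.X J ω) (Fin.last n) 0) F.W) := by
  obtain ⟨e, he, h1⟩ := d1x hF hρ' hal hg₀ hsd
  refine ⟨e, he, fun K₀ N S h => ?_⟩
  obtain ⟨w₀, -, h2⟩ := h1 K₀ N S h
  obtain ⟨τ, hτ, J₁, h2⟩ := h2
  refine ⟨τ, hτ, J₁, fun J hJ F A hS => ?_⟩
  refine (h2 J hJ F A hS 0 (Nat.zero_le _) Unit (fun _ => ()) (fun _ => ())
    (fun _ _ => rfl)).trans (le_of_eq ?_)
  have hl := isLaw_cond F.isLaw (h.pos τ J F A hS)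
  refine CH_congr hl.nonneg ?_ ?_ ?_ ?_
  · intro ω ω' _ _ hh
    have h3 := (Prod.ext_iff.1 hh).1
    funext i
    refine Fin.lastCases ?_ (fun i => ?_) i
    · simp
    · have h4 := congrFun h3 i
      simp only at h4
      simp [h4]
  · intro ω ω' _ _ hh
    have h3 := (Prod.ext_iff.1 hh).1
    funext i
    have h4 := congrFun h3 i.castSucc
    simpa [Function.update_of_ne (Fin.castSucc_lt_last i).ne] using h4
  · intro ω ω' _ _ hh
    exact (Prod.ext_iff.1 hh).2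
  · intro ω ω' _ _ hh
    exact Prod.ext rfl hh

/-- **The rate of the last coordinate**, for a counterexample with small slack. -/
theorem f1x {n : ℕ} (hF : FZX n) {ρ' al : ℝ} (hρ' : 0 < ρ') (hal : 0 < al) {g₀ : ℝ → ℝ}
    (hg₀ : ∀ ε : ℝ, 0 < ε → 0 < g₀ ε) {s : Fin (n + 1) → ℝ} {d : ℕ → ℝ} (hsd : NumX s d) :
    ∃ e : ℝ, 0 < e ∧ ∀ (K₀ : ℕ) (N : ℚ → ℚ → ℝ) (S : PCl (n + 1)), ClX s d al g₀ e K₀ N S →
    ∀ ρ : ℝ, Bas S (fun J F A => CH (Pool.Agent.H49.Ent.cond F.p A True) (F.X J) F.W ≤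
      ((∑ j, (1 - s j)) - ρ) * Real.log 2 * J) →
    ∀ r : ℝ, (∀ h : ℝ, 0 < h → Bas S (fun J F A =>
      |CH (Pool.Agent.H49.Ent.cond F.p A True) (fun ω => F.X ⌊(1 : ℝ) * J⌋₊ ω (Fin.last n))
        (fun ω => oth (Fin.last n) J F (ptr F J ω)) - r * Real.log 2 * J| ≤ h * J)) →
    r ≤ 1 - s (Fin.last n) - ρ + ρ' := by
  have hl2 : 0 < Real.log 2 := Real.log_pos one_lt_two
  obtain ⟨e, he, h1⟩ := vlow hF hρ' hal hg₀ hsd
  refine ⟨e, he, fun K₀ N S h ρ hb r hr => ?_⟩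
  have h2 := row_f1 (ρ := fun _ => r) (i₁ := Fin.last n) (a := (∑ j, (1 - s j)) - ρ)
    (b := (∑ j : Fin n, (1 - s j.castSucc)) - ρ') h.ne h.pos hr (fun h' hh => by
      refine Bas.mono 0 hb fun J _ F A h3 => h3.trans ?_
      refine mul_le_mul_of_nonneg_right (mul_le_mul_of_nonneg_right ?_ hl2.le)
        (Nat.cast_nonneg J)
      linarith) (fun h' hh => by
      refine Bas.mono 0 (h1 K₀ N S h) fun J _ F A h3 => le_trans ?_ h3
      refine mul_le_mul_of_nonneg_right (mul_le_mul_of_nonneg_right ?_ hl2.le)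
        (Nat.cast_nonneg J)
      linarith)
  rw [Fin.sum_univ_castSucc] at h2
  simp only at h2
  linarith

/-- **The rates of one coordinate**, for the classes of the exactness theorem. -/
theorem row_numx {m : ℕ} {s : Fin m → ℝ} {d : ℕ → ℝ} {al : ℝ} {g₀ : ℝ → ℝ} {e : ℝ} {K₀ : ℕ}
    {N : ℚ → ℚ → ℝ} {S : PCl m} (h : ClX s d al g₀ e K₀ N S) (i₁ : Fin m) :
    ∃ S' : PCl m, ClX s d al g₀ e K₀ N S' ∧
      (∀ (τ : ℝ) (J : ℕ) (F : Fam m J) (A : F.Ω → Prop), S'.St τ J F A → S.St τ J F A) ∧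
      ∃ r : ℝ → ℝ, LipschitzWith 1 r ∧ Monotone r ∧ r 0 = 0 ∧
        ∀ Q : ℝ, 0 ≤ Q → Q ≤ 1 → ∀ h : ℝ, 0 < h → Bas S' (fun J F A =>
          |CH (Pool.Agent.H49.Ent.cond F.p A True) (fun ω => F.X ⌊Q * J⌋₊ ω i₁)
            (fun ω => oth i₁ J F (ptr F J ω)) - r Q * Real.log 2 * J| ≤ h * J) := by
  obtain ⟨S', hne, hsub, r, h1, h2, h3, h4⟩ := row_nums h.ne h.pos h.cnt i₁ (B := 2)
    (⟨1, one_pos, 0, fun J _ F A hS ω _ _ => by
      obtain ⟨-, -, -, -, h5, -⟩ := h.mem 1 J F A hS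
      have h6 := gd_x h5 ω i₁
      rw [abs_of_nonneg h6.1]
      exact_mod_cast h6.2⟩) (fun J F => (Fin m → ℤ) × (ℕ × F.ζ)) (fun J F => oth i₁ J F)
  exact ⟨S', h.sub hne hsub, hsub, r, h1, h2, h3, h4⟩

end Pool.GEN.N83
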