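import Pool.Agent.H1.GEN.One
import Pool.Agent.H83.GN.NumX

/-!
# The rate of the last coordinate of a counterexample
-/

set_option autoImplicit false

namespace Pool.ONE

open Pool.GEN Pool.ALL Pool.GEN.N83

/-- **The rate of the last coordinate of a counterexample.** -/
theorem f1n (n : ℕ) : F1N n := by
  intro hn hZ al g₀ s d hal hg₀ hsd ρ h _ hh
  obtain ⟨k, rfl⟩ : ∃ k, n = k + 1 := ⟨n - 1, by omega⟩
  obtain ⟨e, he, h1⟩ := f1x (hZ k (by omega) (by omega)) hh hal hg₀ hsd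
  have hl : lst hn = Fin.last k := Fin.ext (by simp [lst])
  refine ⟨e, he, fun S hS r hr => ?_⟩
  rw [hl] at hr ⊢
  obtain ⟨⟨K₀, N, hC⟩, hb⟩ := hS
  exact h1 K₀ N S hC ρ hb (r 1) (hr.num 1 zero_le_one le_rfl)

end Pool.ONE
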