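import Pool.Agent.H34.BFL.Pick
import Pool.Agent.H34.BFL.Cnt
import Pool.Agent.H89.GEN.PolyA
import Pool.Agent.H32.Dense.Split

/-!
# The entropy of a polynomial map of a full variable (row POLY)

`s` is almost uniform on the grid `|s i| ≤ 2 ^ m` given the context, `P` is a polynomial map into
`ℝ ^ r` which is a function of the context, and a minor of size `r` of the Jacobian matrix is not
small somewhere on the unit box. Then the values of `P` are almost full given the context.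
-/

set_option autoImplicit false

namespace Pool.POLY

open Finset Real
open Pool.Agent.H49.Ent Pool.Agent.H32.Dense Pool.STK Pool.BFL

/-- The number of integer vectors with `|s i| ≤ 2 ^ m`, when the coordinates in the range of `I`
vanish. -/
theorem card_off {n r : ℕ} (I : Fin r → Fin n) (hI : Function.Injective I) (M : ℕ) [DecidableEq (Fin n)] :
    ((Fintype.piFinset fun i : Fin n => if (∃ j, I j = i) then ({0} : Finset ℤ)
      else Finset.Icc (-(M : ℤ)) M).card : ℕ) = (2 * M + 1) ^ (n - r) := by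
  classical
  rw [Fintype.card_piFinset]
  have h1 : ∀ i : Fin n, ((if (∃ j, I j = i) then ({0} : Finset ℤ)
      else Finset.Icc (-(M : ℤ)) M).card : ℕ) = if (∃ j, I j = i) then 1 else 2 * M + 1 := by
    intro i
    split_ifs
    · simp
    · rw [Int.card_Icc]
      omega
  rw [Finset.prod_congr rfl fun i _ => h1 i, Finset.prod_ite, Finset.prod_const_one, one_mul,
    Finset.prod_const]
  congr 1
  have h2 : (univ.filter fun i : Fin n => ∃ j, I j = i) = univ.image I := by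
    ext i
    simp
  have h3 : (univ.filter fun i : Fin n => ∃ j, I j = i).card = r := by
    rw [h2, Finset.card_image_of_injective _ hI, Finset.card_univ, Fintype.card_fin]
  have h4 := Finset.card_filter_add_card_filter_not (s := (univ : Finset (Fin n)))
    (fun i => ∃ j, I j = i)
  rw [h3, Finset.card_univ, Fintype.card_fin] at h4
  omega

open Classical in
theorem Pb_eq_Ex {Ω : Type} [Fintype Ω] (p : Ω → ℝ) (A : Ω → Prop) :
    Pb p A = Ex p (fun ω => if A ω then (1 : ℝ) else 0) := by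
  unfold Pb Ex
  refine Finset.sum_congr rfl fun ω _ => ?_
  by_cases h : A ω
  · simp [h]
  · simp [h]

/-- The probability that a polynomial is small, given a context. -/
theorem bad_ctx (n j : ℕ) : ∃ C : ℝ, 0 ≤ C ∧ ∀ (Ω Γ : Type) [Fintype Ω] (p : Ω → ℝ)
    (s : Ω → Fin n → ℤ) (c : Ω → Γ) (m U : ℕ) (R : Γ → Pl n) (t A θ : ℝ), IsLaw p →
    (∀ ω a, |s ω a| ≤ 2 ^ m) → (∀ x, (R x).totalDegree ≤ j) → U ≤ m → 0 < U → 0 < t →
    t ≤ 1 / 2 → 0 < A → (∀ x, ∃ ξ : Fin n → ℝ, (∀ a, |ξ a| ≤ 1) ∧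
      A ≤ |MvPolynomial.eval ξ (R x)|) → n * (m * Real.log 2) - θ ≤ CH p s c →
    Pb p (fun ω => |MvPolynomial.eval (fun a => (s ω a : ℝ) / 2 ^ m) (R (c ω))| ≤
      A * Real.exp (-(t * U))) ≤ C * (θ + 2 * n + 1) / (t * U) := by
  classical
  obtain ⟨C, hC0, hC⟩ := Pool.Agent.H34.BFL.small_prob n j
  refine ⟨C, hC0, ?_⟩
  intro Ω Γ _ p s c m U R t A θ hp hs hR hU hU0 ht ht2 hA hξ hH
  have hU0' : (0 : ℝ) < U := by exact_mod_cast hU0
  have htU : 0 < t * U := mul_pos ht hU0'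
  obtain ⟨E, hE⟩ : ∃ E : Ω → Prop, E = fun ω => |MvPolynomial.eval
    (fun a => (s ω a : ℝ) / 2 ^ m) (R (c ω))| ≤ A * Real.exp (-(t * U)) := ⟨_, rfl⟩
  rw [← hE, Pb_eq_Ex, Ex_split hp.nonneg _ c]
  have e2 : ∀ x ∈ univ.image c, law p c x * Ex (cond p c x) (fun ω => if E ω then (1 : ℝ) else 0) ≤
      law p c x * (C * ((n * (m * Real.log 2) - H (cond p c x) s) + 2 * n + 1) / (t * U)) := by
    intro x _
    have hl := law_nonneg hp.nonneg c x
    rcases hl.eq_or_lt with h0 | h0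
    · rw [← h0, zero_mul, zero_mul]
    refine mul_le_mul_of_nonneg_left ?_ hl
    have hlaw : IsLaw (cond p c x) := ⟨cond_nonneg hp.nonneg c x, sum_cond p c h0.ne'⟩
    have h1 := hC Ω (cond p c x) s m U (R x) t A hlaw hs (hR x) hU hU0 ht ht2 hA (hξ x)
    refine le_trans (le_of_eq ?_) h1
    rw [Pb_eq_Ex]
    unfold Ex
    refine Finset.sum_congr rfl fun ω _ => ?_
    by_cases h2 : c ω = x
    · simp only [hE, h2]
    · have h3 : cond p c x ω = 0 := by
        unfold Pool.Agent.H49.Ent.cond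
        rw [if_neg h2]
      rw [h3, zero_mul, zero_mul]
  refine (Finset.sum_le_sum e2).trans ?_
  have e3 : ∑ x ∈ univ.image c, law p c x * (C * ((n * (m * Real.log 2) - H (cond p c x) s) +
      2 * n + 1) / (t * U)) = C / (t * U) * ((n * (m * Real.log 2) + 2 * n + 1) - CH p s c) := by
    rw [CH_eq_sum hp.nonneg]
    have e4 : ∀ x ∈ univ.image c, law p c x * (C * ((n * (m * Real.log 2) - H (cond p c x) s) +
        2 * n + 1) / (t * U)) = C / (t * U) * ((n * (m * Real.log 2) + 2 * n + 1) * law p c x -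
          law p c x * H (cond p c x) s) := by
      intro x _
      field_simp
      ring
    rw [Finset.sum_congr rfl e4, ← Finset.mul_sum, Finset.sum_sub_distrib, ← Finset.mul_sum,
      sum_law_one hp.sum_one c, mul_one]
  rw [e3]
  have h5 : C / (t * U) * ((n * (m * Real.log 2) + 2 * n + 1) - CH p s c) ≤
      C / (t * U) * (θ + 2 * n + 1) :=
    mul_le_mul_of_nonneg_left (by linarith) (by positivity)
  refine h5.trans (le_of_eq ?_)
  ring

theorem totalDegree_jac_ap {n r K : ℕ} (P : Fin r → MvPolynomial (Fin n) ℝ) (I : Fin r → Fin n)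
    (h : ∀ j, (P j).totalDegree ≤ K) : (jac P I).totalDegree ≤ r * K := by
  classical
  unfold jac
  rw [Matrix.det_apply]
  refine (MvPolynomial.totalDegree_finsetSum _ _).trans (Finset.sup_le fun σ _ => ?_)
  have h1 : (Equiv.Perm.sign σ • ∏ j, (Matrix.of fun j i => MvPolynomial.pderiv (I i) (P j))
      (σ j) j).totalDegree
      ≤ (∏ j, (Matrix.of fun j i => MvPolynomial.pderiv (I i) (P j)) (σ j) j).totalDegree := by
    rcases Int.units_eq_one_or (Equiv.Perm.sign σ) with h2 | h2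
    · rw [h2, one_smul]
    · rw [h2, Units.neg_smul, one_smul, MvPolynomial.totalDegree_neg]
  refine h1.trans ((MvPolynomial.totalDegree_finsetProd _ _).trans ?_)
  calc ∑ j, ((Matrix.of fun j i => MvPolynomial.pderiv (I i) (P j)) (σ j) j).totalDegree
      ≤ ∑ _j : Fin r, K := Finset.sum_le_sum fun j _ => totalDegree_pderiv _ _ (h _)
    _ = r * K := by rw [Finset.sum_const, Finset.card_univ, Fintype.card_fin, smul_eq_mul]

theorem inj_jac_ap {n r : ℕ} (P : Fin r → MvPolynomial (Fin n) ℝ) (I : Fin r → Fin n)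
    (ξ : Fin n → ℝ) (h : MvPolynomial.eval ξ (jac P I) ≠ 0) : Function.Injective I := by
  intro i i' hii
  by_contra hne
  apply h
  rw [eval_jac]
  exact Matrix.det_zero_of_column_eq hne (fun j => by simp only [Matrix.of_apply, hii])

/-- **POLY.** The values of a polynomial map with a minor which is not small are almost full. -/
theorem poly_core (n r K : ℕ) : ∃ C : ℝ, 1 ≤ C ∧ ∀ (Ω Γ : Type) [Fintype Ω] (p : Ω → ℝ)
    (s : Ω → Fin n → ℤ) (c : Ω → Γ) (m U : ℕ) (P : Γ → Fin r → Pl n) (I : Γ → Fin r → Fin n)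
    (t A B θ : ℝ), IsLaw p → (∀ ω a, |s ω a| ≤ 2 ^ m) → (∀ x j, (P x j).totalDegree ≤ K) →
    (∀ x j k, |MvPolynomial.coeff k (P x j)| ≤ B) → 1 ≤ B → U ≤ m → 0 < U → 0 < t →
    t ≤ 1 / 2 → 0 < A → A ≤ 1 → (∀ x, ∃ ξ : Fin n → ℝ, (∀ a, |ξ a| ≤ 1) ∧
      A ≤ |MvPolynomial.eval ξ (jac (P x) (I x))|) → 0 ≤ θ →
    n * (m * Real.log 2) - θ ≤ CH p s c →
    r * (m * Real.log 2) - C * (θ + 1 + Real.log B - Real.log A + t * U +
      (θ + 1) * (m + 1) / (t * U)) ≤
      CH p (fun ω j => ⌊(2 : ℝ) ^ m * MvPolynomial.eval (fun a => (s ω a : ℝ) / 2 ^ m)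
        (P (c ω) j)⌋) c := by
  classical
  obtain ⟨C₀, hC₀1, hC₀⟩ := loc_inj n r K
  obtain ⟨C₁, hC₁0, hC₁⟩ := bad_ctx n (r * K)
  obtain ⟨C₂, hC₂⟩ : ∃ C₂ : ℝ, C₂ = C₁ * (2 * n + 1) := ⟨_, rfl⟩
  have hC₂0 : 0 ≤ C₂ := by rw [hC₂]; positivity
  obtain ⟨lC, hlC⟩ : ∃ lC : ℝ, lC = Real.log C₀ := ⟨_, rfl⟩
  have hlC0 : 0 ≤ lC := by rw [hlC]; exact Real.log_nonneg hC₀1
  obtain ⟨C, hC⟩ : ∃ C : ℝ, C = 1 + 20 * (n + 1) * (lC + 1) + 4 * (n + 1) * (r + 2) +
    n * C₂ * 4 := ⟨_, rfl⟩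
  have hC1 : 1 ≤ C := by
    have : 0 ≤ 20 * (n + 1) * (lC + 1) + 4 * (n + 1 : ℝ) * (r + 2) + n * C₂ * 4 := by positivity
    linarith
  refine ⟨C, hC1, ?_⟩
  intro Ω Γ _ p s c m U P I t A B θ hp hs hdeg hcf hB hU hU0 ht ht2 hA hA1 hξ hθ hH
  have hU0' : (0 : ℝ) < U := by exact_mod_cast hU0
  have htU : 0 < t * U := mul_pos ht hU0'
  have h2m : (0 : ℝ) < 2 ^ m := by positivity
  have hl2 : Real.log 2 ≤ 1 := by linarith [Real.log_two_lt_d9]
  have hl20 : 0 < Real.log 2 := Real.log_pos (by norm_num)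
  -- the exceptional event
  obtain ⟨δ, hδ⟩ : ∃ δ : ℝ, δ = A * Real.exp (-(t * U)) := ⟨_, rfl⟩
  have hδ0 : 0 < δ := by rw [hδ]; exact mul_pos hA (Real.exp_pos _)
  obtain ⟨E, hE⟩ : ∃ E : Ω → Prop, E = fun ω => |MvPolynomial.eval
    (fun a => (s ω a : ℝ) / 2 ^ m) (jac (P (c ω)) (I (c ω)))| ≤ δ := ⟨_, rfl⟩
  have hPE : Pb p E ≤ C₂ * (θ + 1) / (t * U) := by
    have h1 := hC₁ Ω Γ p s c m U (fun x => jac (P x) (I x)) t A θ hp hs
      (fun x => totalDegree_jac_ap _ _ (hdeg x)) hU hU0 ht ht2 hA hξ hH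
    rw [hE, hδ]
    refine h1.trans ?_
    refine div_le_div_of_nonneg_right ?_ htU.le
    rw [hC₂]
    have h2 : θ + 2 * n + 1 ≤ (2 * n + 1) * (θ + 1) := by
      have : 0 ≤ 2 * (n : ℝ) * θ := by positivity
      linarith
    calc C₁ * (θ + 2 * n + 1) ≤ C₁ * ((2 * n + 1) * (θ + 1)) :=
          mul_le_mul_of_nonneg_left h2 hC₁0
      _ = _ := by ring
  have hPE0 : 0 ≤ Pb p E := by
    rw [Pb_eq_Ex]
    exact Ex_nonneg hp.nonneg fun ω _ => by split_ifs <;> norm_num
  -- the scale of the cells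
  obtain ⟨G, hG⟩ : ∃ G : ℝ, G = C₀ * B ^ (r + 1) / δ := ⟨_, rfl⟩
  have hB0 : 0 < B := by linarith
  have hC₀0 : 0 < C₀ := by linarith
  have hG0 : 0 < G := by rw [hG]; positivity
  have hlG : Real.log G = lC + (r + 1) * Real.log B - Real.log A + t * U := by
    rw [hG, hlC, Real.log_div (by positivity) hδ0.ne', Real.log_mul hC₀0.ne' (by positivity),
      Real.log_pow, hδ, Real.log_mul hA.ne' (Real.exp_pos _).ne', Real.log_exp]
    push_cast
    ring
  have hlB : 0 ≤ Real.log B := Real.log_nonneg hB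
  have hlA : Real.log A ≤ 0 := Real.log_nonpos hA.le hA1
  have hlG0 : 0 ≤ Real.log G := by
    rw [hlG]
    have : 0 ≤ ((r : ℝ) + 1) * Real.log B := by positivity
    linarith
  have hG1 : 1 ≤ G := by
    by_contra hcon
    push Not at hcon
    have := Real.log_neg hG0 hcon
    linarith
  obtain ⟨k, hk⟩ : ∃ k : ℕ, k = ⌈Real.log G / Real.log 2⌉₊ := ⟨_, rfl⟩
  have hk1 : Real.log G ≤ k * Real.log 2 := by
    have h1 := Nat.le_ceil (Real.log G / Real.log 2)
    rw [← hk, div_le_iff₀ hl20] at h1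
    exact h1
  have hk2 : k * Real.log 2 ≤ Real.log G + Real.log 2 := by
    have h1 := Nat.ceil_lt_add_one (a := Real.log G / Real.log 2) (by positivity)
    rw [← hk] at h1
    have h2 := mul_le_mul_of_nonneg_right h1.le hl20.le
    rw [add_mul, div_mul_cancel₀ _ hl20.ne', one_mul] at h2
    exact h2
  have h2k : G ≤ 2 ^ k := by
    have h1 : Real.log G ≤ Real.log (2 ^ k) := by rw [Real.log_pow]; exact hk1
    exact (Real.log_le_log_iff hG0 (by positivity)).1 h1
  -- the variables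
  obtain ⟨Q, hQ⟩ : ∃ Q : Ω → Fin r → ℤ, Q = fun ω j => ⌊(2 : ℝ) ^ m * MvPolynomial.eval
    (fun a => (s ω a : ℝ) / 2 ^ m) (P (c ω) j)⌋ := ⟨_, rfl⟩
  obtain ⟨κ, hκ⟩ : ∃ κ : Ω → Fin n → ℤ, κ = fun ω a => ⌊(2 : ℝ) ^ k * ((s ω a : ℝ) / 2 ^ m)⌋ :=
    ⟨_, rfl⟩
  obtain ⟨off, hoff⟩ : ∃ off : Ω → Fin n → ℤ, off = fun ω i =>
    if (∃ j, I (c ω) j = i) then 0 else s ω i := ⟨_, rfl⟩
  rw [← hQ]
  have hs1 : ∀ ω a, |(s ω a : ℝ) / 2 ^ m| ≤ 1 := by
    intro ω a
    rw [abs_div, abs_of_pos h2m, div_le_one h2m]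
    have := hs ω a
    have h1 : ((|s ω a| : ℤ) : ℝ) ≤ ((2 ^ m : ℤ) : ℝ) := by exact_mod_cast this
    push_cast at h1
    exact h1
  have hrn : r ≤ n := by
    rcases isEmpty_or_nonempty Ω with h0 | h0
    · exfalso
      have h1 := hp.sum_one
      rw [Finset.univ_eq_empty, Finset.sum_empty] at h1
      norm_num at h1
    · obtain ⟨ω⟩ := h0
      obtain ⟨ξ, -, h2⟩ := hξ (c ω)
      have h3 := inj_jac_ap (P (c ω)) (I (c ω)) ξ (by
        intro h4
        rw [h4, abs_zero] at h2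
        linarith)
      have h4 := Fintype.card_le_of_injective _ h3
      rw [Fintype.card_fin, Fintype.card_fin] at h4
      exact h4
  -- the entropy of the cells
  have c1 : CH p κ c ≤ n * (Real.log G + 3) := by
    have h1 := CH_le_vec hp.nonneg hp.sum_one κ c (fun _ => 2 * 2 ^ k) (fun ω ω' _ _ _ a => by
      have e : ∀ ω, -(2 : ℝ) ^ k ≤ κ ω a ∧ (κ ω a : ℝ) ≤ 2 ^ k := by
        intro ω
        have h3 := abs_le.1 (hs1 ω a)
        have h2k0 : (0 : ℝ) < 2 ^ k := by positivity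
        rw [hκ]
        refine ⟨?_, ?_⟩
        · have h4 : (-(2 ^ k) : ℤ) ≤ ⌊(2 : ℝ) ^ k * ((s ω a : ℝ) / 2 ^ m)⌋ := by
            rw [Int.le_floor]
            push_cast
            have h3' := mul_le_mul_of_nonneg_left h3.1 h2k0.le
            linarith only [h3']
          have h5 : (((-(2 ^ k) : ℤ)) : ℝ) ≤ ((⌊(2 : ℝ) ^ k * ((s ω a : ℝ) / 2 ^ m)⌋ : ℤ) : ℝ) := by
            exact_mod_cast h4
          push_cast at h5
          exact h5
        · have h4 := Int.floor_le ((2 : ℝ) ^ k * ((s ω a : ℝ) / 2 ^ m))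
          have h3' := mul_le_mul_of_nonneg_left h3.2 h2k0.le
          linarith only [h3', h4]
      have e1 := e ω
      have e2 := e ω'
      push_cast
      rw [abs_le]
      constructor <;> linarith [e1.1, e1.2, e2.1, e2.2])
    rw [Ex_const hp.sum_one] at h1
    refine h1.trans (mul_le_mul_of_nonneg_left ?_ (Nat.cast_nonneg n))
    have h2 : (2 * (2 * 2 ^ k) + 1 : ℝ) ≤ 2 ^ (k + 3) := by
      have : (1 : ℝ) ≤ 2 ^ k := one_le_pow₀ (by norm_num)
      rw [pow_add]
      linarith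
    refine (Real.log_le_log (by positivity) h2).trans ?_
    rw [Real.log_pow]
    push_cast
    rw [add_mul]
    linarith only [hk2, Real.log_two_lt_d9]
  have c2 : CH p E c ≤ 1 := by
    have h4 := CH_le_card hp.nonneg hp.sum_one E c (fun _ => Finset.univ)
      (fun ω _ => Finset.mem_univ (E ω))
    rw [Ex_const hp.sum_one] at h4
    have h5 : Real.log ((Finset.univ : Finset Prop).card) ≤ 1 := by
      rw [Finset.card_univ, Fintype.card_prop]
      push_cast
      exact hl2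
    linarith
  have c3 : CH p off c ≤ (n - r) * (m * Real.log 2 + 2) := by
    have h4 := CH_le_card hp.nonneg hp.sum_one off c (fun x => Fintype.piFinset fun i : Fin n =>
      if (∃ j, I x j = i) then ({0} : Finset ℤ) else Finset.Icc (-((2 ^ m : ℕ) : ℤ)) (2 ^ m : ℕ))
      (fun ω _ => by
        rw [Fintype.mem_piFinset]
        intro i
        rw [hoff]
        simp only
        split_ifs with h
        · exact Finset.mem_singleton_self _
        · rw [Finset.mem_Icc]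
          have := abs_le.1 (hs ω i)
          push_cast
          exact this)
    have h5 : ∀ x, Real.log (((Fintype.piFinset fun i : Fin n =>
      if (∃ j, I x j = i) then ({0} : Finset ℤ) else
        Finset.Icc (-((2 ^ m : ℕ) : ℤ)) (2 ^ m : ℕ)).card : ℕ) : ℝ) ≤ (n - r) * (m * Real.log 2 + 2) := by
      intro x
      obtain ⟨ξ, -, h2⟩ := hξ x
      have h3 := inj_jac_ap (P x) (I x) ξ (by
        intro h4
        rw [h4, abs_zero] at h2
        linarith)
      rw [card_off (I x) h3]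
      push_cast
      rw [Real.log_pow, Nat.cast_sub hrn]
      have hnr : (0 : ℝ) ≤ (n : ℝ) - r := by
        have : (r : ℝ) ≤ n := by exact_mod_cast hrn
        linarith
      refine mul_le_mul_of_nonneg_left ?_ hnr
      have h6 : (2 * 2 ^ m + 1 : ℝ) ≤ 2 ^ (m + 2) := by
        have : (1 : ℝ) ≤ 2 ^ m := one_le_pow₀ (by norm_num)
        rw [pow_add]
        linarith
      refine (Real.log_le_log (by positivity) h6).trans ?_
      rw [Real.log_pow]
      push_cast
      rw [add_mul]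
      linarith only [hl2]
    refine h4.trans ((Ex_mono hp.nonneg fun ω _ => h5 (c ω)).trans ?_)
    rw [Ex_const hp.sum_one]
  -- the entropy of `s`
  have c4 : CH p s (fun ω => ((κ ω, (E ω, off ω)), (Q ω, c ω))) ≤
      n * (Real.log G + 2 + Pb p E * (m + 3)) := by
    have h1 := CH_le_vec hp.nonneg hp.sum_one s (fun ω => ((κ ω, (E ω, off ω)), (Q ω, c ω)))
      (fun ω => if E ω then 2 * 2 ^ m else G) (fun ω ω' _ _ h a => by
        simp only [Prod.mk.injEq] at h
        obtain ⟨⟨e1, e2, e3⟩, e4, e5⟩ := h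
        by_cases hEω : E ω
        · rw [if_pos hEω]
          have h3 := abs_le.1 (hs ω a)
          have h4 := abs_le.1 (hs ω' a)
          have h5 : |s ω a - s ω' a| ≤ 2 * 2 ^ m := by
            rw [abs_le]
            constructor <;> linarith [h3.1, h3.2, h4.1, h4.2]
          exact_mod_cast h5
        · rw [if_neg hEω]
          have hgood : δ ≤ |MvPolynomial.eval (fun a => (s ω a : ℝ) / 2 ^ m)
              (jac (P (c ω)) (I (c ω)))| := by
            rw [hE] at hEω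
            exact (not_le.1 hEω).le
          have h6 := hC₀ (P (c ω)) (I (c ω)) B 1 δ (1 / 2 ^ m) (1 / 2 ^ k)
            (fun a => (s ω a : ℝ) / 2 ^ m) (fun a => (s ω' a : ℝ) / 2 ^ m) hB le_rfl (by positivity)
            (hdeg _) (hcf _) (hs1 ω) (hs1 ω') (fun i hi => by
              have h7 := congrFun e3 i
              rw [hoff] at h7
              simp only at h7
              rw [if_neg (by push Not; exact hi), ← e5, if_neg (by push Not; exact hi)] at h7
              simp only [h7]) hδ0 hgood (fun i => by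
              have h7 := congrFun e1 i
              rw [hκ] at h7
              have h8 := Int.abs_sub_lt_one_of_floor_eq_floor h7
              rw [← mul_sub, abs_mul, abs_of_pos (by positivity : (0 : ℝ) < 2 ^ k)] at h8
              rw [le_div_iff₀ (by positivity), abs_sub_comm, mul_comm]
              exact h8.le) (by
              rw [one_pow, mul_one, mul_one_div, div_le_iff₀ (by positivity)]
              rw [hG, div_le_iff₀ hδ0] at h2k
              linarith) (fun j => by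
              have h7 := congrFun e4 j
              rw [hQ] at h7
              simp only at h7
              rw [← e5] at h7
              have h8 := Int.abs_sub_lt_one_of_floor_eq_floor h7
              rw [← mul_sub, abs_mul, abs_of_pos h2m] at h8
              rw [le_div_iff₀ h2m, abs_sub_comm, mul_comm]
              exact h8.le) a
          rw [one_pow, mul_one] at h6
          have e6 : (s ω' a : ℝ) / 2 ^ m - (s ω a : ℝ) / 2 ^ m = -(((s ω a - s ω' a : ℤ) : ℝ) / 2 ^ m) := by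
            push_cast
            ring
          rw [e6, abs_neg, abs_div, abs_of_pos h2m, div_le_iff₀ h2m] at h6
          refine h6.trans (le_of_eq ?_)
          rw [hG]
          field_simp)
    refine h1.trans (mul_le_mul_of_nonneg_left ?_ (Nat.cast_nonneg n))
    have h2 : ∀ ω, 0 < p ω → Real.log (2 * (if E ω then 2 * 2 ^ m else G) + 1) ≤
        (Real.log G + 2) + (m + 3) * (if E ω then (1 : ℝ) else 0) := by
      intro ω _
      by_cases hEω : E ω
      · rw [if_pos hEω, if_pos hEω]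
        have h3 : (2 * (2 * 2 ^ m) + 1 : ℝ) ≤ 2 ^ (m + 3) := by
          have : (1 : ℝ) ≤ 2 ^ m := one_le_pow₀ (by norm_num)
          rw [pow_add]
          linarith
        have h4 := Real.log_le_log (by positivity) h3
        rw [Real.log_pow] at h4
        push_cast at h4
        have h5 : ((m : ℝ) + 3) * Real.log 2 ≤ m + 3 := by
          have : (0 : ℝ) ≤ (m : ℝ) + 3 := by positivity
          exact mul_le_of_le_one_right this hl2
        linarith only [h4, h5, hlG0]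
      · rw [if_neg hEω, if_neg hEω]
        have h3 : 2 * G + 1 ≤ G * 4 := by linarith
        have h4 := Real.log_le_log (by positivity) h3
        rw [Real.log_mul hG0.ne' (by norm_num), show (4 : ℝ) = 2 ^ 2 by norm_num, Real.log_pow] at h4
        push_cast at h4
        linarith
    refine (Ex_mono hp.nonneg h2).trans (le_of_eq ?_)
    rw [Ex_add, Ex_const hp.sum_one, Ex_smul, Pb_eq_Ex]
    ring
  -- the sum
  have d1 := CH_le_add hp.nonneg s Q c
  have d2 := CH_le_add hp.nonneg s (fun ω => (κ ω, (E ω, off ω))) (fun ω => (Q ω, c ω))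
  have d3 : CH p (fun ω => (κ ω, (E ω, off ω))) (fun ω => (Q ω, c ω)) ≤
      CH p (fun ω => (κ ω, (E ω, off ω))) c :=
    CH_mono_cond hp.nonneg (fun ω ω' _ _ h => (Prod.ext_iff.mp h).2)
  have d4 := CH_subadd hp.nonneg κ (fun ω => (E ω, off ω)) c
  have d5 := CH_subadd hp.nonneg E off c
  have hm0 : (0 : ℝ) ≤ m := Nat.cast_nonneg m
  have hn0 : (0 : ℝ) ≤ n := Nat.cast_nonneg n
  have hr0 : (0 : ℝ) ≤ r := Nat.cast_nonneg r
  have d6 : Pb p E * (m + 3) ≤ 3 * (C₂ * ((θ + 1) * (m + 1) / (t * U))) := by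
    have h1 := mul_le_mul_of_nonneg_right hPE (by positivity : (0 : ℝ) ≤ 3 * ((m : ℝ) + 1))
    have h2 : Pb p E * (m + 3) ≤ Pb p E * (3 * ((m : ℝ) + 1)) :=
      mul_le_mul_of_nonneg_left (by linarith) hPE0
    refine h2.trans (h1.trans (le_of_eq ?_))
    ring
  obtain ⟨Y, hY⟩ : ∃ Y : ℝ, Y = (θ + 1) * (m + 1) / (t * U) := ⟨_, rfl⟩
  have hY0 : 0 ≤ Y := by rw [hY]; positivity
  rw [← hY] at d6 ⊢
  have d7 : n * (Real.log G + 2 + Pb p E * (m + 3)) ≤ n * (Real.log G + 2 + 3 * (C₂ * Y)) :=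
    mul_le_mul_of_nonneg_left (by linarith) hn0
  have key : n * (m * Real.log 2) - θ ≤ CH p Q c + n * (Real.log G + 3) + 1 +
      (n - r) * (m * Real.log 2 + 2) + n * (Real.log G + 2 + 3 * (C₂ * Y)) := by linarith
  have key2 : r * (m * Real.log 2) ≤ CH p Q c + (θ + 1 + 7 * n + 2 * n * Real.log G +
      3 * (n * C₂ * Y)) := by
    have h1 : 0 ≤ r * (2 : ℝ) := by positivity
    have e : ((n : ℝ) - r) * (m * Real.log 2 + 2) = n * (m * Real.log 2) - r * (m * Real.log 2) +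
      2 * n - r * 2 := by ring
    rw [e] at key
    linarith only [key, h1]
  have hC' : θ + 1 + 7 * n + 2 * n * Real.log G + 3 * (n * C₂ * Y) ≤
      C * (θ + 1 + Real.log B - Real.log A + t * U + Y) := by
    rw [hlG, hC]
    have a1 : 0 ≤ (n : ℝ) * lC := by positivity
    have a2 : 0 ≤ (n : ℝ) * r := by positivity
    have a3 : 0 ≤ (n : ℝ) * C₂ := by positivity
    have b1 : 0 ≤ ((n : ℝ) * lC) * θ := by positivity
    have b2 : 0 ≤ (n : ℝ) * θ := by positivity
    obtain ⟨x, hx⟩ : ∃ x : ℝ, x = -Real.log A := ⟨_, rfl⟩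
    obtain ⟨y, hy⟩ : ∃ y : ℝ, y = Real.log B := ⟨_, rfl⟩
    obtain ⟨z, hz⟩ : ∃ z : ℝ, z = t * U := ⟨_, rfl⟩
    have hx0 : 0 ≤ x := by rw [hx]; linarith
    have hy0 : 0 ≤ y := by rw [hy]; exact hlB
    have hz0 : 0 ≤ z := by rw [hz]; exact htU.le
    rw [← hy, ← hz, sub_eq_add_neg, sub_eq_add_neg, ← hx]
    obtain ⟨D, hD⟩ : ∃ D : ℝ, D = 1 + 20 * (n + 1) * (lC + 1) + 4 * (n + 1) * (r + 2) +
      n * C₂ * 4 := ⟨_, rfl⟩
    rw [← hD]
    have g1 : 2 * n * lC + 7 * n + 1 ≤ D := by rw [hD]; linarith only [a1, a2, a3, hn0, hr0, hlC0]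
    have g2 : 2 * n * (r + 1) ≤ D := by rw [hD]; linarith only [a1, a2, a3, hn0, hr0, hlC0]
    have g3 : 2 * (n : ℝ) ≤ D := by rw [hD]; linarith only [a1, a2, a3, hn0, hr0, hlC0]
    have g4 : 3 * (n * C₂) ≤ D := by rw [hD]; linarith only [a1, a2, a3, hn0, hr0, hlC0]
    have g5 : 1 ≤ D := by rw [hD]; linarith only [a1, a2, a3, hn0, hr0, hlC0]
    have f1 := mul_le_mul_of_nonneg_right g5 hθ
    have f2 := mul_le_mul_of_nonneg_right g2 hy0
    have f3 := mul_le_mul_of_nonneg_right g3 hx0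
    have f4 := mul_le_mul_of_nonneg_right g3 hz0
    have f5 := mul_le_mul_of_nonneg_right g4 hY0
    linarith only [f1, f2, f3, f4, f5, g1]
  linarith only [key2, hC']

/-- **POLY**, with approximate values and different precisions. -/
theorem poly_thm (n r K : ℕ) : ∃ C : ℝ, 1 ≤ C ∧ ∀ (Ω Γ : Type) [Fintype Ω] (p : Ω → ℝ)
    (s : Ω → Fin n → ℤ) (c : Ω → Γ) (m U : ℕ) (P : Γ → Fin r → Pl n) (I : Γ → Fin r → Fin n)
    (t A B θ e : ℝ) (u : Fin r → ℕ) (h : Ω → Fin r → ℝ), IsLaw p → (∀ ω a, |s ω a| ≤ 2 ^ m) →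
    (∀ x j, (P x j).totalDegree ≤ K) →
    (∀ x j k, |MvPolynomial.coeff k (P x j)| ≤ B) → 1 ≤ B → U ≤ m → 0 < U → 0 < t →
    t ≤ 1 / 2 → 0 < A → A ≤ 1 → (∀ x, ∃ ξ : Fin n → ℝ, (∀ a, |ξ a| ≤ 1) ∧
      A ≤ |MvPolynomial.eval ξ (jac (P x) (I x))|) → 0 ≤ θ → 0 ≤ e → (∀ j, u j ≤ m) →
    (∀ ω, 0 < p ω → ∀ j, |h ω j - MvPolynomial.eval (fun a => (s ω a : ℝ) / 2 ^ m)
      (P (c ω) j)| ≤ e / 2 ^ u j) →
    n * (m * Real.log 2) - θ ≤ CH p s c →
    (∑ j, (u j : ℝ)) * Real.log 2 - C * (θ + 1 + Real.log B - Real.log A + t * U +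
      (θ + 1) * (m + 1) / (t * U)) - r * Real.log (4 * e + 5) ≤
      CH p (fun ω j => ⌊(2 : ℝ) ^ u j * h ω j⌋) c := by
  classical
  obtain ⟨C, hC1, hC⟩ := poly_core n r K
  refine ⟨C, hC1, ?_⟩
  intro Ω Γ _ p s c m U P I t A B θ e u h hp hs hdeg hcf hB hU hU0 ht ht2 hA hA1 hξ hθ he hu hh hH
  have h1 := hC Ω Γ p s c m U P I t A B θ hp hs hdeg hcf hB hU hU0 ht ht2 hA hA1 hξ hθ hH
  obtain ⟨v, hv⟩ : ∃ v : Ω → Fin r → ℝ, v = fun ω j => MvPolynomial.eval
    (fun a => (s ω a : ℝ) / 2 ^ m) (P (c ω) j) := ⟨_, rfl⟩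
  have hv' : ∀ ω j, MvPolynomial.eval (fun a => (s ω a : ℝ) / 2 ^ m) (P (c ω) j) = v ω j :=
    fun ω j => by rw [hv]
  simp only [hv'] at h1 hh
  obtain ⟨X, hX⟩ : ∃ X : ℝ, X = C * (θ + 1 + Real.log B - Real.log A + t * U +
      (θ + 1) * (m + 1) / (t * U)) := ⟨_, rfl⟩
  rw [← hX] at h1 ⊢
  obtain ⟨R, hR⟩ : ∃ R : Ω → Fin r → ℤ, R = fun ω j => ⌊(2 : ℝ) ^ m * v ω j⌋ % 2 ^ (m - u j) :=
    ⟨_, rfl⟩
  obtain ⟨Q, hQ⟩ : ∃ Q : Ω → Fin r → ℤ, Q = fun ω j => ⌊(2 : ℝ) ^ u j * v ω j⌋ := ⟨_, rfl⟩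
  have hdiv : ∀ ω j, ⌊(2 : ℝ) ^ u j * v ω j⌋ = ⌊(2 : ℝ) ^ m * v ω j⌋ / 2 ^ (m - u j) := by
    intro ω j
    have e1 : (2 : ℝ) ^ u j * v ω j = (2 ^ m * v ω j) / ((2 ^ (m - u j) : ℕ) : ℝ) := by
      have e2 : (2 : ℝ) ^ m = 2 ^ u j * 2 ^ (m - u j) := by
        rw [← pow_add]
        congr 1
        have := hu j
        omega
      rw [e2]
      push_cast
      field_simp
    rw [e1, Int.floor_div_natCast]
    push_cast
    rfl
  -- the remainders
  have c1 : CH p R (fun ω => (Q ω, c ω)) ≤ (r * m - ∑ j, (u j : ℝ)) * Real.log 2 := by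
    have h4 := CH_le_card hp.nonneg hp.sum_one R (fun ω => (Q ω, c ω)) (fun _ =>
      Fintype.piFinset fun j : Fin r => Finset.Ico (0 : ℤ) (2 ^ (m - u j))) (fun ω _ => by
        rw [Fintype.mem_piFinset]
        intro j
        rw [hR]
        simp only [Finset.mem_Ico]
        exact ⟨Int.emod_nonneg _ (by positivity), Int.emod_lt_of_pos _ (by positivity)⟩)
    rw [Ex_const hp.sum_one, Fintype.card_piFinset] at h4
    refine h4.trans (le_of_eq ?_)
    push_cast
    rw [Real.log_prod (fun j _ => by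
      rw [Int.card_Ico]
      have : (0 : ℤ) < 2 ^ (m - u j) := by positivity
      have h5 : 0 < ((2 : ℤ) ^ (m - u j) - 0).toNat := by omega
      exact_mod_cast h5.ne')]
    have e1 : ∀ j ∈ (univ : Finset (Fin r)), Real.log (((Finset.Ico (0 : ℤ) (2 ^ (m - u j))).card :
        ℕ) : ℝ) = (m - u j) * Real.log 2 := by
      intro j _
      rw [Int.card_Ico]
      have h5 : (((2 : ℤ) ^ (m - u j) - 0).toNat : ℕ) = 2 ^ (m - u j) := by
        rw [sub_zero]
        have : ((2 : ℤ) ^ (m - u j)) = ((2 ^ (m - u j) : ℕ) : ℤ) := by push_cast; rfl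
        rw [this, Int.toNat_natCast]
      rw [h5]
      push_cast
      rw [Real.log_pow, Nat.cast_sub (hu j)]
    rw [Finset.sum_congr rfl e1, ← Finset.sum_mul, Finset.sum_sub_distrib, Finset.sum_const,
      Finset.card_univ, Fintype.card_fin, nsmul_eq_mul]
  have c2 : CH p (fun ω j => ⌊(2 : ℝ) ^ m * v ω j⌋) c ≤
      CH p Q c + (r * m - ∑ j, (u j : ℝ)) * Real.log 2 := by
    have h2 := CH_le_add hp.nonneg (fun ω j => ⌊(2 : ℝ) ^ m * v ω j⌋) Q c
    have h3 : CH p (fun ω j => ⌊(2 : ℝ) ^ m * v ω j⌋) (fun ω => (Q ω, c ω)) ≤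
        CH p R (fun ω => (Q ω, c ω)) := by
      have h4 := CH_le_add hp.nonneg (fun ω j => ⌊(2 : ℝ) ^ m * v ω j⌋) R (fun ω => (Q ω, c ω))
      have h5 : CH p (fun ω j => ⌊(2 : ℝ) ^ m * v ω j⌋) (fun ω => (R ω, (Q ω, c ω))) = 0 := by
        refine CH_eq_zero hp.nonneg ?_
        intro ω ω' _ _ hh'
        simp only [Prod.mk.injEq] at hh'
        obtain ⟨a1, a2, -⟩ := hh'
        funext j
        have b1 := congrFun a1 j
        have b2 := congrFun a2 j
        rw [hR] at b1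
        rw [hQ] at b2
        simp only at b1 b2
        rw [hdiv, hdiv] at b2
        have b3 := Int.emod_add_mul_ediv ⌊(2 : ℝ) ^ m * v ω j⌋ (2 ^ (m - u j))
        have b4 := Int.emod_add_mul_ediv ⌊(2 : ℝ) ^ m * v ω' j⌋ (2 ^ (m - u j))
        show ⌊(2 : ℝ) ^ m * v ω j⌋ = ⌊(2 : ℝ) ^ m * v ω' j⌋
        rw [← b3, ← b4, b1, b2]
      linarith only [h4, h5]
    linarith only [h2, h3, c1]
  -- the approximate values
  have c3 : CH p Q (fun ω => ((fun j => ⌊(2 : ℝ) ^ u j * h ω j⌋), c ω)) ≤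
      r * Real.log (4 * e + 5) := by
    have h4 := CH_le_vec hp.nonneg hp.sum_one Q (fun ω => ((fun j => ⌊(2 : ℝ) ^ u j * h ω j⌋), c ω))
      (fun _ => 2 * e + 2) (fun ω ω' hω hω' hh' j => by
        simp only [Prod.mk.injEq] at hh'
        have a1 : ⌊(2 : ℝ) ^ u j * h ω j⌋ = ⌊(2 : ℝ) ^ u j * h ω' j⌋ := congrFun hh'.1 j
        have a2 := Int.abs_sub_lt_one_of_floor_eq_floor a1
        have a3 := hh ω hω j
        have a4 := hh ω' hω' j
        have h2u : (0 : ℝ) < 2 ^ u j := by positivity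
        have a5 : |(2 : ℝ) ^ u j * v ω j - 2 ^ u j * h ω j| ≤ e := by
          rw [← mul_sub, abs_mul, abs_of_pos h2u, abs_sub_comm]
          rw [le_div_iff₀ h2u] at a3
          rw [mul_comm]
          exact a3
        have a6 : |(2 : ℝ) ^ u j * v ω' j - 2 ^ u j * h ω' j| ≤ e := by
          rw [← mul_sub, abs_mul, abs_of_pos h2u, abs_sub_comm]
          rw [le_div_iff₀ h2u] at a4
          rw [mul_comm]
          exact a4
        have a7 := Pool.Agent.H34.BFL.floor_sub_le ((2 : ℝ) ^ u j * v ω j) ((2 : ℝ) ^ u j * v ω' j)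
        rw [hQ]
        simp only
        refine a7.trans ?_
        have a8 : |(2 : ℝ) ^ u j * v ω j - 2 ^ u j * v ω' j| ≤ 2 * e + 1 := by
          rw [abs_le] at a5 a6 ⊢
          rw [abs_lt] at a2
          constructor <;> linarith only [a2.1, a2.2, a5.1, a5.2, a6.1, a6.2]
        linarith only [a8])
    rw [Ex_const hp.sum_one] at h4
    refine h4.trans (le_of_eq ?_)
    congr 2
    ring
  have c4 := CH_le_add hp.nonneg Q (fun ω j => ⌊(2 : ℝ) ^ u j * h ω j⌋) c
  have e9 : (r * m - ∑ j, (u j : ℝ)) * Real.log 2 = r * (m * Real.log 2) -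
    (∑ j, (u j : ℝ)) * Real.log 2 := by ring
  rw [e9] at c2
  linarith only [h1, c2, c3, c4]

end Pool.POLY
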